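import Pool.Agent.Q179.MO.Corr

/-! Bounded multiplicative functions. -/

set_option autoImplicit false

namespace Pool.Agent.Q179.MO

open Finset Filter Topology
open Pool.Agent.Results.MP_f3f922_nt.UniformPair (Mult)

/-- multiplicative and bounded by `C` on the positive integers -/
structure MB (g : ℕ → ℂ) (C : ℝ) : Prop where
  one : g 1 = 1
  mul : ∀ m n : ℕ, 0 < m → 0 < n → Nat.Coprime m n → g (m * n) = g m * g n
  bd : ∀ n, 1 ≤ n → ‖g n‖ ≤ C

variable {g : ℕ → ℂ} {C : ℝ}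

/-- the least upper bound of the values at the powers of `p` -/
noncomputable def M (g : ℕ → ℂ) (p : ℕ) : ℝ := ⨆ k : ℕ, ‖g (p ^ k)‖

theorem MB.bdd (hg : MB g C) {p : ℕ} (hp : p.Prime) : BddAbove (Set.range fun k : ℕ => ‖g (p ^ k)‖) :=
  ⟨C, by rintro _ ⟨k, rfl⟩; exact hg.bd _ (Nat.one_le_pow _ _ hp.pos)⟩

theorem MB.le_M (hg : MB g C) {p : ℕ} (hp : p.Prime) (k : ℕ) : ‖g (p ^ k)‖ ≤ M g p :=
  le_ciSup (hg.bdd hp) k

theorem MB.one_le_M (hg : MB g C) {p : ℕ} (hp : p.Prime) : 1 ≤ M g p := by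
  have h := hg.le_M hp 0
  rwa [pow_zero, hg.one, norm_one] at h

theorem MB.one_le (hg : MB g C) : 1 ≤ C := by
  have h := hg.bd 1 le_rfl
  rwa [hg.one, norm_one] at h

theorem MB.prod_le' (hg : MB g C) (T : Finset ℕ) : (∀ p ∈ T, p.Prime) → ∀ n : ℕ, 1 ≤ n → (∀ p ∈ T, Nat.Coprime n p) →
    ‖g n‖ * ∏ p ∈ T, M g p ≤ C := by
  induction T using Finset.induction_on with
  | empty => intro _ n hn _; simpa using hg.bd n hn
  | insert p T hpT ih =>
    intro hT n hn hc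
    have hp : p.Prime := hT p (mem_insert_self _ _)
    have hT' : ∀ q ∈ T, q.Prime := fun q hq => hT q (mem_insert_of_mem hq)
    rw [prod_insert hpT]
    have h0 : 0 ≤ ‖g n‖ * ∏ p ∈ T, M g p := mul_nonneg (norm_nonneg _)
      (prod_nonneg fun q hq => zero_le_one.trans (hg.one_le_M (hT' q hq)))
    have h1 : ∀ k : ℕ, (‖g n‖ * ∏ p ∈ T, M g p) * ‖g (p ^ k)‖ ≤ C := by
      intro k
      have h2 := ih hT' (n * p ^ k) (Nat.mul_pos hn (Nat.pow_pos hp.pos)) (fun q hq => by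
        refine Nat.Coprime.mul_left (hc q (mem_insert_of_mem hq)) ?_
        refine Nat.Coprime.pow_left k ((Nat.coprime_primes hp (hT' q hq)).2 ?_)
        rintro rfl
        exact hpT hq)
      rw [hg.mul n (p ^ k) hn (Nat.pow_pos hp.pos) (Nat.Coprime.pow_right k (hc p (mem_insert_self _ _))), norm_mul] at h2
      calc (‖g n‖ * ∏ p ∈ T, M g p) * ‖g (p ^ k)‖ = ‖g n‖ * ‖g (p ^ k)‖ * ∏ p ∈ T, M g p := by ring
        _ ≤ C := h2
    have e1 : ‖g n‖ * (M g p * ∏ p ∈ T, M g p) = (‖g n‖ * ∏ p ∈ T, M g p) * M g p := by ring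
    rw [e1, M, Real.mul_iSup_of_nonneg h0]
    exact ciSup_le h1

theorem MB.prod_le (hg : MB g C) (T : Finset ℕ) (hT : ∀ p ∈ T, p.Prime) : ∏ p ∈ T, M g p ≤ C := by
  have h := hg.prod_le' T hT 1 le_rfl (fun p _ => Nat.coprime_one_left p)
  rwa [hg.one, norm_one, one_mul] at h

theorem MB.tail (hg : MB g C) {ε : ℝ} (hε : 0 < ε) : ∃ P : ℕ, ∀ T : Finset ℕ, (∀ p ∈ T, p.Prime ∧ P < p) →
    ∏ p ∈ T, M g p ≤ 1 + ε := by
  set A : Set ℝ := {x | ∃ T : Finset ℕ, (∀ p ∈ T, p.Prime) ∧ x = ∏ p ∈ T, M g p} with hA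
  have hb : BddAbove A := ⟨C, by rintro _ ⟨T, hT, rfl⟩; exact hg.prod_le T hT⟩
  have hne : (1 : ℝ) ∈ A := ⟨∅, by simp, by simp⟩
  have hL : 1 ≤ sSup A := le_csSup hb hne
  have hlt : sSup A / (1 + ε) < sSup A := by
    rw [div_lt_iff₀ (by linarith)]
    nlinarith
  obtain ⟨_, ⟨T₀, hT₀, rfl⟩, h1⟩ := exists_lt_of_lt_csSup ⟨1, hne⟩ hlt
  refine ⟨T₀.sup id, fun T hT => ?_⟩
  have hd : Disjoint T₀ T := by
    rw [Finset.disjoint_left]
    intro p h2 h3
    have h4 : p ≤ T₀.sup id := Finset.le_sup (f := id) h2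
    have := (hT p h3).2
    omega
  have h2 : (∏ p ∈ T₀, M g p) * ∏ p ∈ T, M g p ≤ sSup A := by
    rw [← prod_union hd]
    refine le_csSup hb ⟨T₀ ∪ T, fun p hp => ?_, rfl⟩
    rcases mem_union.1 hp with h | h
    · exact hT₀ p h
    · exact (hT p h).1
  have h3 : 0 ≤ ∏ p ∈ T, M g p := prod_nonneg fun q hq => zero_le_one.trans (hg.one_le_M (hT q hq).1)
  rw [div_lt_iff₀ (by linarith)] at h1
  by_contra h4
  rw [not_le] at h4
  have h5 : 0 < ∏ p ∈ T₀, M g p := by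
    by_contra h6
    nlinarith
  nlinarith

/-- the normalised function -/
noncomputable def g₁ (g : ℕ → ℂ) (n : ℕ) : ℂ := g n / ((∏ p ∈ n.primeFactors, M g p : ℝ) : ℂ)

theorem MB.pos (hg : MB g C) (T : Finset ℕ) (hT : ∀ p ∈ T, p.Prime) : 0 < ∏ p ∈ T, M g p :=
  prod_pos fun p hp => zero_lt_one.trans_le (hg.one_le_M (hT p hp))

theorem MB.le_prod (hg : MB g C) {n : ℕ} (hn : 1 ≤ n) : ‖g n‖ ≤ ∏ p ∈ n.primeFactors, M g p := by
  have h1 : ∀ x y : ℕ, Nat.Coprime x y → g (x * y) = g x * g y := by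
    intro x y h
    rcases Nat.eq_zero_or_pos x with rfl | hx
    · rw [Nat.coprime_zero_left] at h
      subst h
      rw [hg.one, mul_one, mul_one]
    rcases Nat.eq_zero_or_pos y with rfl | hy
    · rw [Nat.coprime_zero_right] at h
      subst h
      rw [hg.one, one_mul, one_mul]
    exact hg.mul x y hx hy h
  rw [Nat.multiplicative_factorization g h1 hg.one (by omega : n ≠ 0), Finsupp.prod, norm_prod, Nat.support_factorization]
  exact prod_le_prod (fun _ _ => norm_nonneg _) fun p hp => hg.le_M (Nat.prime_of_mem_primeFactors hp) _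

theorem MB.mult (hg : MB g C) : Mult (g₁ g) := by
  refine ⟨fun n hn => ?_, fun m n hm hn hc => ?_⟩
  · unfold g₁
    have h1 := hg.pos n.primeFactors (fun p hp => Nat.prime_of_mem_primeFactors hp)
    rw [norm_div, Complex.norm_real, Real.norm_of_nonneg h1.le, div_le_one h1]
    exact hg.le_prod hn
  · unfold g₁
    rw [hg.mul m n hm hn hc, hc.primeFactors_mul, prod_union hc.disjoint_primeFactors, div_mul_div_comm]
    push_cast
    rfl

/-- the periodic factor -/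
noncomputable def kap (g : ℕ → ℂ) (P : ℕ) (n : ℕ) : ℝ :=
  ∏ p ∈ (Icc 1 P).filter Nat.Prime, (if p ∣ n then M g p else 1)

theorem kap_per (g : ℕ → ℂ) (P n : ℕ) : kap g P (n + P.factorial) = kap g P n := by
  unfold kap
  refine prod_congr rfl fun p hp => ?_
  rw [mem_filter, mem_Icc] at hp
  have h1 : p ∣ P.factorial := Nat.dvd_factorial hp.2.pos hp.1.2
  exact if_congr ((Nat.dvd_add_iff_left h1).symm) rfl rfl

theorem MB.kap_le (hg : MB g C) (P n : ℕ) : 1 ≤ kap g P n ∧ kap g P n ≤ C := by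
  have e1 : kap g P n = ∏ p ∈ ((Icc 1 P).filter Nat.Prime).filter (fun p => p ∣ n), M g p := by
    unfold kap
    exact (Finset.prod_filter (fun p => p ∣ n) _).symm
  rw [e1]
  have hT : ∀ p ∈ ((Icc 1 P).filter Nat.Prime).filter (fun p => p ∣ n), p.Prime := fun p hp =>
    (mem_filter.1 (mem_filter.1 hp).1).2
  refine ⟨?_, hg.prod_le _ hT⟩
  exact Finset.prod_induction _ (fun x : ℝ => 1 ≤ x) (fun a b ha hb => one_le_mul_of_one_le_of_one_le ha hb) le_rfl
    fun p hp => hg.one_le_M (hT p hp)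

theorem MB.approx (hg : MB g C) {ε : ℝ} {P : ℕ} (hP : ∀ T : Finset ℕ, (∀ p ∈ T, p.Prime ∧ P < p) →
    ∏ p ∈ T, M g p ≤ 1 + ε) {n : ℕ} (hn : 1 ≤ n) : ‖g n - (kap g P n : ℂ) * g₁ g n‖ ≤ C * ε := by
  have hpr : ∀ p ∈ n.primeFactors, p.Prime := fun p hp => Nat.prime_of_mem_primeFactors hp
  have e1 : kap g P n = ∏ p ∈ n.primeFactors.filter (fun p => p ≤ P), M g p := by
    unfold kap
    rw [← Finset.prod_filter (fun p => p ∣ n)]
    refine prod_congr ?_ fun _ _ => rfl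
    ext p
    simp only [mem_filter, mem_Icc, Nat.mem_primeFactors]
    constructor
    · rintro ⟨⟨⟨h1, h2⟩, h3⟩, h4⟩
      exact ⟨⟨h3, h4, by omega⟩, h2⟩
    · rintro ⟨⟨h3, h4, _⟩, h2⟩
      exact ⟨⟨⟨h3.pos, h2⟩, h3⟩, h4⟩
  have e2 : ∏ p ∈ n.primeFactors, M g p = kap g P n * ∏ p ∈ n.primeFactors.filter (fun p => ¬ p ≤ P), M g p := by
    rw [e1, prod_filter_mul_prod_filter_not]
  set R := ∏ p ∈ n.primeFactors.filter (fun p => ¬ p ≤ P), M g p with hR
  have hR1 : R ≤ 1 + ε := hP _ fun p hp => by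
    rw [mem_filter] at hp
    exact ⟨hpr p hp.1, by omega⟩
  have hR0 : 1 ≤ R := Finset.prod_induction _ (fun x : ℝ => 1 ≤ x)
    (fun a b ha hb => one_le_mul_of_one_le_of_one_le ha hb) le_rfl fun p hp => hg.one_le_M (hpr p (mem_filter.1 hp).1)
  have hk := hg.kap_le P n
  have hk0 : (kap g P n : ℂ) ≠ 0 := by exact_mod_cast (by linarith [hk.1] : kap g P n ≠ 0)
  have hRc : (R : ℂ) ≠ 0 := by exact_mod_cast (by linarith : R ≠ 0)
  have e3 : g n - (kap g P n : ℂ) * g₁ g n = (kap g P n : ℂ) * g₁ g n * ((R - 1 : ℝ) : ℂ) := by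
    have e4 : g n = (kap g P n : ℂ) * (R : ℂ) * g₁ g n := by
      unfold g₁
      rw [e2]
      push_cast
      field_simp
    rw [e4]
    push_cast
    ring
  rw [e3, norm_mul, norm_mul, Complex.norm_real, Complex.norm_real, Real.norm_of_nonneg (by linarith [hk.1]),
    Real.norm_of_nonneg (by linarith)]
  calc kap g P n * ‖g₁ g n‖ * (R - 1) ≤ C * 1 * ε := by
        apply mul_le_mul _ (by linarith) (by linarith) (by linarith [hg.one_le])
        exact mul_le_mul hk.2 (hg.mult.1 n hn) (norm_nonneg _) (by linarith [hg.one_le])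
    _ = C * ε := by ring

theorem harm_le (X : ℕ) : ∑ n ∈ Icc 1 X, (1 : ℝ) / n ≤ 1 + Real.log X := by
  have h := harmonic_le_one_add_log X
  rw [harmonic_eq_sum_Icc] at h
  push_cast at h
  simpa only [one_div] using h

theorem pair3 (a c : ℕ) (hac : a ≠ c) (q : ℕ) (hq : 1 ≤ q) (κ : ℕ → ℂ) (hκ : ∀ n, ‖κ n‖ ≤ 1)
    (hp : ∀ n, κ (n + q) = κ n) (hg : MB g C) (ε : ℝ) (hε : 0 < ε) :
    ∃ X₀ : ℕ, ∀ X : ℕ, X₀ ≤ X →
      ‖∑ n ∈ Icc 1 X, lam (n + a) * κ (n + a) * g (n + c) / n‖ ≤ ε * Real.log X := by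
  have hC := hg.one_le
  have hC0 : 0 < C := by linarith
  obtain ⟨P, hP⟩ := hg.tail (show 0 < ε / (4 * C) by positivity)
  obtain ⟨X₀, h0⟩ := pair2 a c hac (q * P.factorial) (Nat.mul_pos hq P.factorial_pos) κ (fun n => ((kap g P n / C : ℝ) : ℂ)) hκ
    (fun n => by rw [mul_comm]; exact per_mul hp n _) (fun n => by
      have h1 := hg.kap_le P n
      rw [Complex.norm_real, Real.norm_of_nonneg (div_nonneg (by linarith [h1.1]) hC0.le), div_le_one hC0]
      exact h1.2) (fun n => by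
      exact per_mul (κ := fun n => ((kap g P n / C : ℝ) : ℂ)) (q := P.factorial) (fun m => by simp only [kap_per]) n q) (g₁ g) hg.mult (ε / (2 * C)) (by positivity)
  obtain ⟨X₁, h1⟩ := log_ev 1
  refine ⟨X₀ + X₁, fun X hX => ?_⟩
  have h2 := h0 X (by omega)
  have h3 := h1 X (by omega)
  have e1 : ∑ n ∈ Icc 1 X, lam (n + a) * κ (n + a) * g (n + c) / n =
      C * ∑ n ∈ Icc 1 X, lam (n + a) * κ (n + a) * ((((kap g P (n + c) / C : ℝ) : ℂ)) * g₁ g (n + c)) / n +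
      ∑ n ∈ Icc 1 X, lam (n + a) * κ (n + a) * (g (n + c) - (kap g P (n + c) : ℂ) * g₁ g (n + c)) / n := by
    rw [mul_sum, ← sum_add_distrib]
    refine sum_congr rfl fun n _ => ?_
    have hCc : (C : ℂ) ≠ 0 := by exact_mod_cast hC0.ne'
    push_cast
    field_simp
    ring
  rw [e1]
  have h4 : ‖∑ n ∈ Icc 1 X, lam (n + a) * κ (n + a) * (g (n + c) - (kap g P (n + c) : ℂ) * g₁ g (n + c)) / n‖ ≤
      ε / 4 * (1 + Real.log X) := by
    refine (norm_sum_le _ _).trans ?_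
    calc ∑ n ∈ Icc 1 X, ‖lam (n + a) * κ (n + a) * (g (n + c) - (kap g P (n + c) : ℂ) * g₁ g (n + c)) / n‖
        ≤ ∑ n ∈ Icc 1 X, ε / 4 * (1 / (n : ℝ)) := by
          refine sum_le_sum fun n hn => ?_
          have hn1 := (mem_Icc.1 hn).1
          rw [norm_div, norm_mul, norm_mul, lam_norm, one_mul, Complex.norm_natCast, div_eq_mul_one_div]
          refine mul_le_mul_of_nonneg_right ?_ (by positivity)
          have h5 := hg.approx hP (show 1 ≤ n + c by omega)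
          calc ‖κ (n + a)‖ * ‖g (n + c) - (kap g P (n + c) : ℂ) * g₁ g (n + c)‖ ≤ 1 * (C * (ε / (4 * C))) :=
                mul_le_mul (hκ _) h5 (norm_nonneg _) zero_le_one
            _ = ε / 4 := by field_simp
      _ = ε / 4 * ∑ n ∈ Icc 1 X, (1 / (n : ℝ)) := by rw [mul_sum]
      _ ≤ _ := mul_le_mul_of_nonneg_left (harm_le X) (by positivity)
  have h6 : ‖(C : ℂ) * ∑ n ∈ Icc 1 X, lam (n + a) * κ (n + a) * ((((kap g P (n + c) / C : ℝ) : ℂ)) * g₁ g (n + c)) / n‖ ≤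
      ε / 2 * Real.log X := by
    rw [norm_mul, Complex.norm_real, Real.norm_of_nonneg hC0.le]
    calc _ ≤ C * (ε / (2 * C) * Real.log X) := mul_le_mul_of_nonneg_left h2 hC0.le
      _ = ε / 2 * Real.log X := by field_simp
  refine (norm_add_le _ _).trans ((add_le_add h6 h4).trans ?_)
  nlinarith

end Pool.Agent.Q179.MO
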