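import Pool.Agent.Results.MP_f3f922_nt.UniformPair

/-! Logarithmic pair correlations of `λ(n) κ(n)` with bounded multiplicative functions. -/

set_option autoImplicit false

namespace Pool.Agent.Q179.MO

open Finset Filter Topology
open Pool.Agent.Results.MP_f3f922_nt.UniformPair (Om e Mult OmegaType)

/-- the Liouville function -/
noncomputable def lam (n : ℕ) : ℂ := (-1) ^ Om n

theorem lam_norm (n : ℕ) : ‖lam n‖ = 1 := by
  unfold lam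
  rw [norm_pow, norm_neg, norm_one, one_pow]

theorem log_abel (G : ℕ → ℂ) (X : ℕ) : ∑ n ∈ Icc 1 X, G n / n =
    ∑ n ∈ Icc 1 X, (∑ m ∈ Icc 1 n, G m) * (1 / ((n : ℂ) * ((n : ℂ) + 1))) +
      (∑ m ∈ Icc 1 X, G m) / ((X : ℂ) + 1) := by
  induction X with
  | zero => simp
  | succ X ih =>
    rw [sum_Icc_succ_top (by omega), sum_Icc_succ_top (by omega), ih, sum_Icc_succ_top (by omega)]
    have h1 : ((X : ℂ) + 1) ≠ 0 := by exact_mod_cast Nat.succ_ne_zero X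
    have h2 : ((X : ℂ) + 1 + 1) ≠ 0 := by exact_mod_cast Nat.succ_ne_zero (X + 1)
    push_cast
    field_simp
    ring

theorem log_small {G : ℕ → ℂ} (hG : ∀ n, 1 ≤ n → ‖G n‖ ≤ 1) {X : ℕ} {t : ℝ}
    (h : ∑ N ∈ Icc 1 X, ‖∑ n ∈ Icc 1 N, G n‖ / (N : ℝ) ^ 2 ≤ t) :
    ‖∑ n ∈ Icc 1 X, G n / n‖ ≤ t + 1 := by
  rw [log_abel]
  refine (norm_add_le _ _).trans (add_le_add ?_ ?_)
  · refine (norm_sum_le _ _).trans ((sum_le_sum fun n hn => ?_).trans h)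
    rw [mem_Icc] at hn
    have h0 : (0 : ℝ) < n := by exact_mod_cast hn.1
    rw [norm_mul, div_eq_mul_one_div ‖_‖]
    refine mul_le_mul_of_nonneg_left ?_ (norm_nonneg _)
    rw [norm_div, norm_one, norm_mul, Complex.norm_natCast]
    have e1 : ‖(n : ℂ) + 1‖ = (n : ℝ) + 1 := by
      rw [show (n : ℂ) + 1 = ((n + 1 : ℕ) : ℂ) by push_cast; rfl, Complex.norm_natCast]
      push_cast
      rfl
    rw [e1]
    apply one_div_le_one_div_of_le (by positivity)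
    nlinarith
  · rw [norm_div]
    have e1 : ‖(X : ℂ) + 1‖ = (X : ℝ) + 1 := by
      rw [show (X : ℂ) + 1 = ((X + 1 : ℕ) : ℂ) by push_cast; rfl, Complex.norm_natCast]
      push_cast
      rfl
    rw [e1, div_le_one (by positivity)]
    have h1 : ‖∑ m ∈ Icc 1 X, G m‖ ≤ ∑ m ∈ Icc 1 X, (1 : ℝ) :=
      (norm_sum_le _ _).trans (sum_le_sum fun n hn => hG n (mem_Icc.1 hn).1)
    rw [sum_const, Nat.card_Icc, nsmul_eq_mul, mul_one] at h1
    have h2 : ((X + 1 - 1 : ℕ) : ℝ) = X := by norm_num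
    rw [h2] at h1
    linarith

theorem per_mul {κ : ℕ → ℂ} {q : ℕ} (h : ∀ n, κ (n + q) = κ n) (n k : ℕ) : κ (n + k * q) = κ n := by
  induction k with
  | zero => simp
  | succ k ih => rw [Nat.succ_mul, ← add_assoc, h, ih]

theorem log_ev (t : ℝ) : ∃ X₀ : ℕ, ∀ X : ℕ, X₀ ≤ X → t ≤ Real.log X :=
  eventually_atTop.1 ((tendsto_atTop.1 (Real.tendsto_log_atTop.comp tendsto_natCast_atTop_atTop)) t)

theorem pair1 (a c : ℕ) (hac : a ≠ c) (q : ℕ) (hq : 1 ≤ q) (κ : ℕ → ℂ) (hκ : ∀ n, ‖κ n‖ ≤ 1)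
    (hp : ∀ n, κ (n + q) = κ n) (g : ℕ → ℂ) (hg : Mult g) (ε : ℝ) (hε : 0 < ε) :
    ∃ X₀ : ℕ, ∀ X : ℕ, X₀ ≤ X →
      ‖∑ n ∈ Icc 1 X, lam (n + a) * κ (n + a) * g (n + c) / n‖ ≤ ε * Real.log X := by
  obtain ⟨X₀, h0⟩ := Pool.Agent.Results.MP_f3f922_nt.UniformPair.result a c hac q 1 one_pos (ε / 2) (by positivity)
  obtain ⟨X₁, h1⟩ := log_ev (2 / ε)
  refine ⟨X₀ + X₁, fun X hX => ?_⟩
  have h2 := (h0 X (by omega) (fun n => lam n * κ n) ⟨q, κ, hq, le_rfl, hκ, hp, Or.inl ⟨-1, by simp, by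
    rw [show (-1 - 1 : ℂ) = -2 by norm_num]; simp, fun n => rfl⟩⟩ g hg).1 (fun _ => 0) (fun N => N) (fun N => le_rfl)
  have h3 := h1 X (by omega)
  rw [div_le_iff₀ hε] at h3
  have h4 : ∀ n : ℕ, 1 ≤ n → ‖lam (n + a) * κ (n + a) * g (n + c)‖ ≤ 1 := by
    intro n hn
    rw [norm_mul, norm_mul, lam_norm, one_mul]
    exact mul_le_one₀ (hκ _) (norm_nonneg _) (hg.1 _ (by omega))
  have e0 : ∀ n : ℕ, e (0 * n) = 1 := by
    intro n
    unfold e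
    simp
  simp only [e0, mul_one] at h2
  have h5 := log_small h4 h2
  linarith

theorem pair2 (a c : ℕ) (hac : a ≠ c) (q : ℕ) (hq : 1 ≤ q) (κ κ' : ℕ → ℂ) (hκ : ∀ n, ‖κ n‖ ≤ 1)
    (hp : ∀ n, κ (n + q) = κ n) (hκ' : ∀ n, ‖κ' n‖ ≤ 1) (hp' : ∀ n, κ' (n + q) = κ' n)
    (g : ℕ → ℂ) (hg : Mult g) (ε : ℝ) (hε : 0 < ε) :
    ∃ X₀ : ℕ, ∀ X : ℕ, X₀ ≤ X →
      ‖∑ n ∈ Icc 1 X, lam (n + a) * κ (n + a) * (κ' (n + c) * g (n + c)) / n‖ ≤ ε * Real.log X := by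
  obtain ⟨X₀, h0⟩ := pair1 a c hac q hq (fun m => κ m * κ' (m + a * (q - 1) + c)) (fun n => by
    rw [norm_mul]
    exact mul_le_one₀ (hκ _) (norm_nonneg _) (hκ' _)) (fun n => by
      have e1 : n + q + a * (q - 1) + c = n + a * (q - 1) + c + q := by ring
      show κ (n + q) * κ' (n + q + a * (q - 1) + c) = κ n * κ' (n + a * (q - 1) + c)
      rw [hp, e1, hp']) g hg ε hε
  refine ⟨X₀, fun X hX => ?_⟩
  convert h0 X hX using 2
  refine sum_congr rfl fun n _ => ?_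
  have e1 : n + a + a * (q - 1) + c = n + c + a * q := by
    obtain ⟨r, rfl⟩ : ∃ r, q = r + 1 := ⟨q - 1, by omega⟩
    rw [Nat.add_sub_cancel]
    ring
  show _ = lam (n + a) * (κ (n + a) * κ' (n + a + a * (q - 1) + c)) * g (n + c) / n
  rw [e1, per_mul hp']
  ring

end Pool.Agent.Q179.MO
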