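import Pool.Agent.TH127.MO.Local
import Mathlib.NumberTheory.EulerProduct.Basic

/-! The product of the Dirichlet series of `f` and of `λ f` on the integers without small prime factors. -/

set_option autoImplicit false

namespace Pool.Agent.Q179.MO

open Finset Filter Topology
open Pool.Agent.TH127.MO

/-- the Liouville function, and zero if there is a prime factor at most `P` -/
noncomputable def lamP (P n : ℕ) : ℂ :=
  if ∀ p ∈ n.primeFactors, P < p then (-1) ^ ArithmeticFunction.cardFactors n else 0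

theorem lamP_norm (P n : ℕ) : ‖lamP P n‖ ≤ 1 := by
  unfold lamP
  split_ifs
  · rw [norm_pow, norm_neg, norm_one, one_pow]
  · simp

theorem lamP_one (P : ℕ) : lamP P 1 = 1 := by
  unfold lamP
  simp

theorem lamP_mul (P m n : ℕ) (hm : 0 < m) (hn : 0 < n) : lamP P (m * n) = lamP P m * lamP P n := by
  unfold lamP
  rw [ArithmeticFunction.cardFactors_mul hm.ne' hn.ne', pow_add, Nat.primeFactors_mul hm.ne' hn.ne']
  by_cases h1 : ∀ p ∈ m.primeFactors, P < p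
  · by_cases h2 : ∀ p ∈ n.primeFactors, P < p
    · rw [if_pos h1, if_pos h2, if_pos]
      intro p hp
      rcases mem_union.1 hp with h | h
      · exact h1 p h
      · exact h2 p h
    · rw [if_neg h2, if_neg, mul_zero]
      intro h
      exact h2 fun p hp => h p (mem_union_right _ hp)
  · rw [if_neg h1, if_neg, zero_mul]
    intro h
    exact h1 fun p hp => h p (mem_union_left _ hp)

theorem lamP_pow_small {P p : ℕ} (hp : p.Prime) (hpP : p ≤ P) {k : ℕ} (hk : k ≠ 0) : lamP P (p ^ k) = 0 := by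
  unfold lamP
  rw [if_neg]
  intro h
  have := h p (by rw [Nat.primeFactors_prime_pow hk hp]; exact mem_singleton_self p)
  omega

theorem lamP_pow_large {P p : ℕ} (hp : p.Prime) (hpP : P < p) (k : ℕ) : lamP P (p ^ k) = (-1) ^ k := by
  unfold lamP
  rw [if_pos]
  · rw [ArithmeticFunction.cardFactors_apply_prime_pow hp]
  · intro r hr
    rcases Nat.eq_zero_or_pos k with rfl | hk
    · simp at hr
    · rw [Nat.primeFactors_prime_pow hk.ne' hp, mem_singleton] at hr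
      omega

variable {f : ℕ → ℂ} {B : ℝ}

/-- the twisted terms -/
noncomputable def h (f : ℕ → ℂ) (P : ℕ) (σ : ℝ) (n : ℕ) : ℂ := lamP P n * g f σ n

theorem h_norm (f : ℕ → ℂ) (P : ℕ) (σ : ℝ) (n : ℕ) : ‖h f P σ n‖ ≤ ‖g f σ n‖ := by
  unfold h
  rw [norm_mul]
  exact mul_le_of_le_one_left (norm_nonneg _) (lamP_norm P n)

theorem summable_h (hB : ∀ n : ℕ, 1 ≤ n → ‖f n‖ ≤ B / n) (P : ℕ) {σ : ℝ} (hσ : 0 < σ) : Summable fun n => ‖h f P σ n‖ :=
  Summable.of_nonneg_of_le (fun _ => norm_nonneg _) (h_norm f P σ) (summable_g hB hσ)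

theorem h_mul (hf : IsMO f) (P : ℕ) {σ : ℝ} (hσ : 0 < σ) {m n : ℕ} (hc : Nat.Coprime m n) :
    h f P σ (m * n) = h f P σ m * h f P σ n := by
  rcases Nat.eq_zero_or_pos m with rfl | hm
  · unfold h
    rw [zero_mul, g_zero f hσ]
    ring
  rcases Nat.eq_zero_or_pos n with rfl | hn
  · unfold h
    rw [mul_zero, g_zero f hσ]
    ring
  unfold h
  rw [g_mul hf hc, lamP_mul P m n hm hn]
  ring

/-- the local factors of the product, at a large prime -/
theorem local_prod (h1 : f 1 = 1) (hB : ∀ n : ℕ, 1 ≤ n → ‖f n‖ ≤ B / n) {σ : ℝ} (hσ : 0 < σ) {P p : ℕ}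
    (hp : p.Prime) (hpP : P < p) :
    1 - 20 * B ^ 2 / (p : ℝ) ^ 2 ≤ ‖(∑' e, g f σ (p ^ e)) * ∑' e, h f P σ (p ^ e)‖ := by
  have hB1 : 1 ≤ B := by
    have := hB 1 le_rfl
    rw [h1] at this
    simpa using this
  have hp2 : (2 : ℝ) ≤ p := by exact_mod_cast hp.two_le
  have hp0 : (0 : ℝ) < p := by linarith
  have hs := summable_local hB hσ.le hp
  have hs' : Summable fun e => h f P σ (p ^ e) := by
    refine Summable.of_norm (Summable.of_nonneg_of_le (fun _ => norm_nonneg _) (fun e => h_norm f P σ (p ^ e)) ?_)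
    exact hs.norm
  have e1 : ∑' e, g f σ (p ^ e) = 1 + (g f σ p + ∑' e, g f σ (p ^ (e + 2))) := by
    rw [hs.tsum_eq_zero_add, ((summable_nat_add_iff 1).2 hs).tsum_eq_zero_add]
    rw [pow_zero, g_one h1, zero_add, pow_one]
  have e2 : ∑' e, h f P σ (p ^ e) = 1 + (-g f σ p + ∑' e, h f P σ (p ^ (e + 2))) := by
    rw [hs'.tsum_eq_zero_add, ((summable_nat_add_iff 1).2 hs').tsum_eq_zero_add]
    unfold h
    rw [lamP_pow_large hp hpP, lamP_pow_large hp hpP, pow_zero, pow_zero, g_one h1, zero_add, pow_one, pow_one]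
    ring
  set r := ∑' e, g f σ (p ^ (e + 2)) with hr
  set r' := ∑' e, h f P σ (p ^ (e + 2)) with hr'
  set w := g f σ p with hw
  have hx : 1 / (p : ℝ) ≤ 1 / 2 := by
    rw [div_le_div_iff₀ hp0 (by norm_num)]
    linarith
  have hx0 : 0 < 1 / (p : ℝ) := by positivity
  have hgeo := (hasSum_geometric_of_lt_one hx0.le (inv_prime_lt_one hp)).mul_left (B * (1 / (p : ℝ)) ^ 2)
  have h3 : (1 - 1 / (p : ℝ))⁻¹ ≤ 2 := by
    rw [inv_le_comm₀ (by linarith) (by norm_num)]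
    linarith
  have h4 : B * (1 / (p : ℝ)) ^ 2 * (1 - 1 / (p : ℝ))⁻¹ ≤ 2 * B / (p : ℝ) ^ 2 := by
    calc B * (1 / (p : ℝ)) ^ 2 * (1 - 1 / (p : ℝ))⁻¹ ≤ B * (1 / (p : ℝ)) ^ 2 * 2 :=
          mul_le_mul_of_nonneg_left h3 (by positivity)
      _ = 2 * B / (p : ℝ) ^ 2 := by field_simp
  have hg2 : ∀ e, ‖g f σ (p ^ (e + 2))‖ ≤ B * (1 / (p : ℝ)) ^ 2 * (1 / (p : ℝ)) ^ e := fun e => by
    refine (norm_g_pow_le hB hσ.le hp (e + 2)).trans (le_of_eq ?_)
    rw [pow_add]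
    ring
  have hrn : ‖r‖ ≤ 2 * B / (p : ℝ) ^ 2 := (tsum_of_norm_bounded hgeo hg2).trans h4
  have hrn' : ‖r'‖ ≤ 2 * B / (p : ℝ) ^ 2 :=
    (tsum_of_norm_bounded hgeo fun e => (h_norm f P σ _).trans (hg2 e)).trans h4
  have hwn : ‖w‖ ≤ B / p := by
    have := norm_g_pow_le hB hσ.le hp 1
    rw [pow_one, pow_one] at this
    calc ‖w‖ ≤ B * (1 / (p : ℝ)) := this
      _ = B / p := by ring
  have hwB : ‖w‖ ≤ B := hwn.trans (div_le_self (by linarith) (by linarith))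
  have hrB : ‖r'‖ ≤ B := hrn'.trans (by
    rw [div_le_iff₀ (by positivity)]
    have h7 : (4 : ℝ) ≤ (p : ℝ) ^ 2 := by nlinarith
    nlinarith)
  rw [e1, e2]
  have e3 : (1 + (w + r)) * (1 + (-w + r')) = 1 - (w ^ 2 - r' * (1 + w) - r * (1 - w + r')) := by ring
  rw [e3]
  have h5 : ‖w ^ 2 - r' * (1 + w) - r * (1 - w + r')‖ ≤ 20 * B ^ 2 / (p : ℝ) ^ 2 := by
    have a1 : ‖w ^ 2‖ ≤ B ^ 2 / (p : ℝ) ^ 2 := by
      rw [norm_pow, ← div_pow]
      exact pow_le_pow_left₀ (norm_nonneg _) hwn 2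
    have a2 : ‖r' * (1 + w)‖ ≤ 2 * B / (p : ℝ) ^ 2 * (1 + B) := by
      rw [norm_mul]
      refine mul_le_mul hrn' ((norm_add_le _ _).trans ?_) (norm_nonneg _) (by positivity)
      rw [norm_one]
      linarith
    have a3 : ‖r * (1 - w + r')‖ ≤ 2 * B / (p : ℝ) ^ 2 * (1 + B + B) := by
      rw [norm_mul]
      refine mul_le_mul hrn ((norm_add_le _ _).trans (add_le_add ((norm_sub_le _ _).trans ?_) hrB)) (norm_nonneg _)
        (by positivity)
      rw [norm_one]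
      linarith
    have a4 := (norm_sub_le (w ^ 2 - r' * (1 + w)) (r * (1 - w + r'))).trans (add_le_add_left (norm_sub_le (w ^ 2) (r' * (1 + w))) _)
    have a5 : B ^ 2 / (p : ℝ) ^ 2 + 2 * B / (p : ℝ) ^ 2 * (1 + B) + 2 * B / (p : ℝ) ^ 2 * (1 + B + B) ≤
        20 * B ^ 2 / (p : ℝ) ^ 2 := by
      have e4 : B ^ 2 / (p : ℝ) ^ 2 + 2 * B / (p : ℝ) ^ 2 * (1 + B) + 2 * B / (p : ℝ) ^ 2 * (1 + B + B) =
          (B ^ 2 + 2 * B * (1 + B) + 2 * B * (1 + B + B)) / (p : ℝ) ^ 2 := by ring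
      rw [e4]
      apply div_le_div_of_nonneg_right _ (by positivity)
      nlinarith
    linarith
  have h6 := norm_sub_norm_le (1 : ℂ) (w ^ 2 - r' * (1 + w) - r * (1 - w + r'))
  rw [norm_one] at h6
  linarith

theorem sq_tail (P : ℕ) (hP : 1 ≤ P) (T : Finset ℕ) (hT : ∀ p ∈ T, P < p) :
    ∑ p ∈ T, 1 / (p : ℝ) ^ 2 ≤ 1 / (P : ℝ) := by
  obtain ⟨N, hN⟩ : ∃ N : ℕ, ∀ p ∈ T, p ≤ N := ⟨T.sup id, fun p hp => Finset.le_sup (f := id) hp⟩
  have h1 : ∀ N : ℕ, P ≤ N → ∑ p ∈ Ioc P N, 1 / (p : ℝ) ^ 2 ≤ 1 / (P : ℝ) - 1 / (N : ℝ) := by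
    intro N hN
    induction N, hN using Nat.le_induction with
    | base => simp
    | succ N hN ih =>
      rw [Finset.sum_Ioc_succ_top hN]
      have hN0 : (0 : ℝ) < N := by exact_mod_cast (by omega : 0 < N)
      have h2 : 1 / ((N + 1 : ℕ) : ℝ) ^ 2 ≤ 1 / (N : ℝ) - 1 / ((N + 1 : ℕ) : ℝ) := by
        push_cast
        rw [div_sub_div _ _ hN0.ne' (by positivity), div_le_div_iff₀ (by positivity) (by positivity)]
        nlinarith
      linarith
  rcases le_total P N with h | h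
  · have hPN : (0 : ℝ) ≤ 1 / (N : ℝ) := by positivity
    refine (sum_le_sum_of_subset_of_nonneg (fun p hp => mem_Ioc.2 ⟨hT p hp, hN p hp⟩) (fun _ _ _ => by positivity)).trans ?_
    linarith [h1 N h]
  · have : T = ∅ := by
      rw [Finset.eq_empty_iff_forall_notMem]
      intro p hp
      have := hT p hp
      have := hN p hp
      omega
    rw [this, sum_empty]
    positivity

theorem prod_ge (T : Finset ℕ) (x y : ℕ → ℝ) (h0 : ∀ p ∈ T, 0 ≤ x p) (h1 : ∀ p ∈ T, x p ≤ 1) (h2 : ∀ p ∈ T, 1 - x p ≤ y p) :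
    1 - ∑ p ∈ T, x p ≤ ∏ p ∈ T, y p ∧ 0 ≤ ∏ p ∈ T, (1 - x p) := by
  have h3 : 1 - ∑ p ∈ T, x p ≤ ∏ p ∈ T, (1 - x p) ∧ 0 ≤ ∏ p ∈ T, (1 - x p) := by
    clear h2
    induction T using Finset.induction_on with
    | empty => simp
    | insert p T hp ih =>
      have h4 := ih (fun q hq => h0 q (mem_insert_of_mem hq)) (fun q hq => h1 q (mem_insert_of_mem hq))
      have a1 := h0 p (mem_insert_self _ _)
      have a2 := h1 p (mem_insert_self _ _)
      have a3 : 0 ≤ ∑ q ∈ T, x q := sum_nonneg fun q hq => h0 q (mem_insert_of_mem hq)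
      rw [sum_insert hp, prod_insert hp]
      refine ⟨?_, mul_nonneg (by linarith) h4.2⟩
      nlinarith [mul_le_mul_of_nonneg_left h4.1 (by linarith : 0 ≤ 1 - x p), mul_nonneg a1 a3]
  refine ⟨h3.1.trans (prod_le_prod (fun p hp => by linarith [h1 p hp]) h2), h3.2⟩

theorem local_small (h1 : f 1 = 1) {σ : ℝ} {P p : ℕ} (hp : p.Prime) (hpP : p ≤ P) : ∑' e, h f P σ (p ^ e) = 1 := by
  rw [tsum_eq_single 0]
  · unfold h
    rw [pow_zero, lamP_one, g_one h1, one_mul]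
  · intro e he
    unfold h
    rw [lamP_pow_small hp hpP he, zero_mul]

/-- the Dirichlet series of `λ f` on the integers without small prime factors is large near `0` -/
theorem twisted_large (hf : IsMO f) {B CF : ℝ} (hB : ∀ n : ℕ, 1 ≤ n → ‖f n‖ ≤ B / n) (hCF : 0 < CF)
    (hF : ∀ σ : ℝ, 0 < σ → ‖∑' n, g f σ n‖ ≤ σ * CF) :
    ∃ P : ℕ, ∃ δ : ℝ, 0 < δ ∧ ∀ᶠ σ : ℝ in 𝓝[>] 0, δ / σ ≤ ‖∑' n, h f P σ n‖ := by
  have hB1 : 1 ≤ B := by
    have := hB 1 le_rfl
    rw [hf.one] at this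
    simpa using this
  obtain ⟨P, hP⟩ := exists_nat_ge (40 * B ^ 2)
  have hP1 : 1 ≤ P := by
    have : (1 : ℝ) ≤ P := by nlinarith
    exact_mod_cast this
  -- the small primes
  have hsmall : ∀ T : Finset ℕ, (∀ p ∈ T, p.Prime) → ∃ c : ℝ, 0 < c ∧
      ∀ᶠ σ : ℝ in 𝓝[>] 0, c ≤ ∏ p ∈ T, ‖∑' e, g f σ (p ^ e)‖ := by
    intro T
    induction T using Finset.induction_on with
    | empty => exact fun _ => ⟨1, one_pos, by simp⟩
    | insert p T hpT ih =>
      intro hT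
      obtain ⟨c, hc, h1⟩ := ih (fun q hq => hT q (mem_insert_of_mem hq))
      obtain ⟨z, hz, h2⟩ := tendsto_local hf hB (hT p (mem_insert_self _ _))
      have h3 : ∀ᶠ σ : ℝ in 𝓝[>] 0, ‖z‖ / 2 < ‖∑' e, g f σ (p ^ e)‖ :=
        h2.norm.eventually_const_lt (by have := norm_pos_iff.2 hz; linarith)
      refine ⟨‖z‖ / 2 * c, mul_pos (half_pos (norm_pos_iff.2 hz)) hc, ?_⟩
      filter_upwards [h1, h3] with σ h4 h5
      rw [prod_insert hpT]
      exact mul_le_mul h5.le h4 hc.le (norm_nonneg _)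
  obtain ⟨c, hc, h1⟩ := hsmall ((Icc 1 P).filter Nat.Prime) (fun p hp => (mem_filter.1 hp).2)
  refine ⟨P, c / 2 / CF, by positivity, ?_⟩
  filter_upwards [h1, self_mem_nhdsWithin] with σ h2 hσ
  have hσ0 : 0 < σ := hσ
  -- Euler products
  have E1 := EulerProduct.eulerProduct_hasProd (f := g f σ) (g_one hf.one σ) (fun hmn => g_mul hf hmn) (summable_g hB hσ0)
    (g_zero f hσ0)
  have E2 := EulerProduct.eulerProduct_hasProd (f := h f P σ) (by unfold h; rw [lamP_one, g_one hf.one, one_mul])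
    (fun hmn => h_mul hf P hσ0 hmn) (summable_h hB P hσ0) (by unfold h; rw [g_zero f hσ0, mul_zero])
  have E3 := (E1.mul E2).norm
  have h3 : c / 2 ≤ ‖(∑' n, g f σ n) * ∑' n, h f P σ n‖ := by
    refine ge_of_tendsto E3 ?_
    rw [SummationFilter.unconditional_filter]
    filter_upwards [eventually_ge_atTop (Finset.subtype Nat.Prime (Icc 1 P))] with x hx
    rw [norm_prod]
    set F : ℕ → ℝ := fun p => ‖(∑' e, g f σ (p ^ e)) * ∑' e, h f P σ (p ^ e)‖ with hF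
    have e1 : ∏ b ∈ x, ‖(fun b : Nat.Primes => (∑' e, g f σ ((b : ℕ) ^ e)) * ∑' e, h f P σ ((b : ℕ) ^ e)) b‖ =
        ∏ p ∈ x.map ⟨fun b : Nat.Primes => (b : ℕ), Subtype.val_injective⟩, F p := by
      rw [prod_map]
      rfl
    rw [e1]
    set T : Finset ℕ := x.map ⟨fun b : Nat.Primes => (b : ℕ), Subtype.val_injective⟩ with hT
    have hTp : ∀ p ∈ T, p.Prime := by
      intro p hp
      rw [hT, Finset.mem_map] at hp
      obtain ⟨b, _, rfl⟩ := hp
      exact b.2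
    rw [← prod_filter_mul_prod_filter_not T (fun p => p ≤ P)]
    have e2 : T.filter (fun p => p ≤ P) = (Icc 1 P).filter Nat.Prime := by
      ext p
      simp only [mem_filter, mem_Icc]
      constructor
      · rintro ⟨h5, h6⟩
        exact ⟨⟨(hTp p h5).pos, h6⟩, hTp p h5⟩
      · rintro ⟨⟨h5, h6⟩, h7⟩
        refine ⟨?_, h6⟩
        rw [hT, Finset.mem_map]
        exact ⟨⟨p, h7⟩, hx (Finset.mem_subtype.2 (mem_Icc.2 ⟨h5, h6⟩)), rfl⟩
    have e3 : ∏ p ∈ (Icc 1 P).filter Nat.Prime, F p = ∏ p ∈ (Icc 1 P).filter Nat.Prime, ‖∑' e, g f σ (p ^ e)‖ := by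
      refine prod_congr rfl fun p hp => ?_
      rw [mem_filter, mem_Icc] at hp
      rw [hF]
      show ‖(∑' e, g f σ (p ^ e)) * ∑' e, h f P σ (p ^ e)‖ = _
      rw [local_small hf.one hp.2 hp.1.2, mul_one]
    rw [e2, e3]
    have h5 : 1 / 2 ≤ ∏ p ∈ T.filter (fun p => ¬ p ≤ P), F p := by
      have hT2 : ∀ p ∈ T.filter (fun p => ¬ p ≤ P), P < p := fun p hp => by
        have := (mem_filter.1 hp).2
        omega
      have hP0 : (0 : ℝ) < P := by exact_mod_cast hP1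
      have h6 := (prod_ge (T.filter (fun p => ¬ p ≤ P)) (fun p => 20 * B ^ 2 / (p : ℝ) ^ 2) F
        (fun p _ => by positivity) (fun p hp => ?_) (fun p hp => ?_)).1
      · have h7 := sq_tail P hP1 _ hT2
        have e4 : ∑ p ∈ T.filter (fun p => ¬ p ≤ P), 20 * B ^ 2 / (p : ℝ) ^ 2 =
            20 * B ^ 2 * ∑ p ∈ T.filter (fun p => ¬ p ≤ P), 1 / (p : ℝ) ^ 2 := by
          rw [mul_sum]
          exact sum_congr rfl fun p _ => by ring
        rw [e4] at h6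
        have h8 : 20 * B ^ 2 * ∑ p ∈ T.filter (fun p => ¬ p ≤ P), 1 / (p : ℝ) ^ 2 ≤ 20 * B ^ 2 * (1 / (P : ℝ)) :=
          mul_le_mul_of_nonneg_left h7 (by positivity)
        have h9 : 20 * B ^ 2 * (1 / (P : ℝ)) ≤ 1 / 2 := by
          rw [mul_one_div, div_le_div_iff₀ hP0 (by norm_num)]
          linarith
        linarith
      · show 20 * B ^ 2 / (p : ℝ) ^ 2 ≤ 1
        have h7 : (P : ℝ) < p := by exact_mod_cast hT2 p hp
        have h8 : (1 : ℝ) ≤ p := by exact_mod_cast (hTp p (mem_filter.1 hp).1).one_lt.le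
        have h9 : (p : ℝ) ≤ (p : ℝ) ^ 2 := by nlinarith
        have h10 : 0 ≤ B ^ 2 := by positivity
        rw [div_le_one (by positivity)]
        linarith
      · exact local_prod hf.one hB hσ0 (hTp p (mem_filter.1 hp).1) (hT2 p hp)
    calc c / 2 = c * (1 / 2) := by ring
      _ ≤ _ := mul_le_mul h2 h5 (by norm_num) (prod_nonneg fun _ _ => norm_nonneg _)
  have h4 := hF σ hσ0
  rw [norm_mul] at h3
  rw [div_div, div_le_iff₀ (by positivity)]
  calc c / 2 ≤ ‖∑' n, g f σ n‖ * ‖∑' n, h f P σ n‖ := h3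
    _ ≤ σ * CF * ‖∑' n, h f P σ n‖ := mul_le_mul_of_nonneg_right h4 (norm_nonneg _)
    _ = _ := by ring

end Pool.Agent.Q179.MO
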