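import Pool.Agent.Q179.MO.Euler

/-! Logarithmic averages from the Dirichlet series. -/

set_option autoImplicit false

namespace Pool.Agent.Q179.MO

open Finset Filter Topology
open Pool.Agent.TH127.MO

theorem step_le {σ : ℝ} (hσ : 0 < σ) (n : ℕ) (hn : 1 ≤ n) :
    Real.log n * ((n : ℝ) ^ (-σ) - ((n + 1 : ℕ) : ℝ) ^ (-σ)) ≤
      (n : ℝ) ^ (-σ) * (Real.log n + 1 / σ) - ((n + 1 : ℕ) : ℝ) ^ (-σ) * (Real.log ((n + 1 : ℕ) : ℝ) + 1 / σ) := by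
  have h0 : (0 : ℝ) < n := by exact_mod_cast hn
  have h1 : (0 : ℝ) < ((n + 1 : ℕ) : ℝ) := by positivity
  have e1 : (n : ℝ) ^ (-σ) = ((n + 1 : ℕ) : ℝ) ^ (-σ) * Real.exp (σ * (Real.log ((n + 1 : ℕ) : ℝ) - Real.log n)) := by
    rw [Real.rpow_def_of_pos h0, Real.rpow_def_of_pos h1, ← Real.exp_add]
    congr 1
    ring
  have h2 := Real.add_one_le_exp (σ * (Real.log ((n + 1 : ℕ) : ℝ) - Real.log n))
  have h3 : 0 ≤ ((n + 1 : ℕ) : ℝ) ^ (-σ) := by positivity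
  have h4 : ((n + 1 : ℕ) : ℝ) ^ (-σ) * (σ * (Real.log ((n + 1 : ℕ) : ℝ) - Real.log n) + 1) ≤ (n : ℝ) ^ (-σ) := by
    rw [e1]
    exact mul_le_mul_of_nonneg_left h2 h3
  have h5 : ((n + 1 : ℕ) : ℝ) ^ (-σ) * (Real.log ((n + 1 : ℕ) : ℝ) - Real.log n) ≤
      ((n : ℝ) ^ (-σ) - ((n + 1 : ℕ) : ℝ) ^ (-σ)) * (1 / σ) := by
    rw [mul_one_div, le_div_iff₀ hσ]
    nlinarith
  nlinarith

theorem tele {σ : ℝ} (hσ : 0 < σ) (N : ℕ) :
    ∑ n ∈ Icc 1 N, Real.log n * ((n : ℝ) ^ (-σ) - ((n + 1 : ℕ) : ℝ) ^ (-σ)) ≤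
      1 / σ - ((N + 1 : ℕ) : ℝ) ^ (-σ) * (Real.log ((N + 1 : ℕ) : ℝ) + 1 / σ) := by
  induction N with
  | zero => simp
  | succ N ih =>
    rw [sum_Icc_succ_top (by omega)]
    have := step_le hσ (N + 1) (by omega)
    linarith

theorem tele1 (σ : ℝ) (N : ℕ) : ∑ n ∈ Icc 1 N, ((n : ℝ) ^ (-σ) - ((n + 1 : ℕ) : ℝ) ^ (-σ)) =
    1 - ((N + 1 : ℕ) : ℝ) ^ (-σ) := by
  induction N with
  | zero => simp
  | succ N ih =>
    rw [sum_Icc_succ_top (by omega), ih]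
    ring

theorem dir_le {F : ℕ → ℂ} {δ D σ : ℝ} (hδ : 0 ≤ δ) (_hD : 0 ≤ D) (hσ : 0 < σ)
    (h : ∀ X : ℕ, 1 ≤ X → ‖s F X‖ ≤ δ * Real.log X + D) (N : ℕ) (hN : 1 ≤ N) :
    ‖∑ n ∈ Icc 1 N, g F σ n‖ ≤ 2 * δ / σ + D := by
  rw [sum_g]
  have h1 : ‖∑ n ∈ Icc 1 N, s F n * (((n : ℝ) ^ (-σ) - ((n + 1 : ℕ) : ℝ) ^ (-σ) : ℝ) : ℂ)‖ ≤
      δ * (1 / σ) + D * (1 - ((N + 1 : ℕ) : ℝ) ^ (-σ)) := by
    calc _ ≤ ∑ n ∈ Icc 1 N, (δ * (Real.log n * ((n : ℝ) ^ (-σ) - ((n + 1 : ℕ) : ℝ) ^ (-σ))) +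
          D * ((n : ℝ) ^ (-σ) - ((n + 1 : ℕ) : ℝ) ^ (-σ))) := by
          refine norm_sum_le_of_le _ fun n hn => ?_
          have hn1 := (mem_Icc.1 hn).1
          rw [norm_mul, Complex.norm_real, Real.norm_of_nonneg (rpow_diff_nonneg hn1 hσ.le)]
          have := mul_le_mul_of_nonneg_right (h n hn1) (rpow_diff_nonneg hn1 hσ.le)
          linarith
      _ = δ * ∑ n ∈ Icc 1 N, Real.log n * ((n : ℝ) ^ (-σ) - ((n + 1 : ℕ) : ℝ) ^ (-σ)) +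
          D * ∑ n ∈ Icc 1 N, ((n : ℝ) ^ (-σ) - ((n + 1 : ℕ) : ℝ) ^ (-σ)) := by
          rw [sum_add_distrib, ← mul_sum, ← mul_sum]
      _ ≤ _ := by
          rw [tele1]
          have h2 := tele hσ N
          have h3 : 0 ≤ ((N + 1 : ℕ) : ℝ) ^ (-σ) * (Real.log ((N + 1 : ℕ) : ℝ) + 1 / σ) := by
            have : 0 ≤ Real.log ((N + 1 : ℕ) : ℝ) := Real.log_natCast_nonneg _
            positivity
          have h4 : ∑ n ∈ Icc 1 N, Real.log n * ((n : ℝ) ^ (-σ) - ((n + 1 : ℕ) : ℝ) ^ (-σ)) ≤ 1 / σ := by linarith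
          have := mul_le_mul_of_nonneg_left h4 hδ
          linarith
  have h2 : ‖s F N * ((((N + 1 : ℕ) : ℝ) ^ (-σ) : ℝ) : ℂ)‖ ≤ δ * (1 / σ) + D * ((N + 1 : ℕ) : ℝ) ^ (-σ) := by
    rw [norm_mul, Complex.norm_real, Real.norm_of_nonneg (rpow_neg_nonneg _ _)]
    have h3 := mul_le_mul_of_nonneg_right (h N hN) (rpow_neg_nonneg (N + 1) σ)
    have h4 : Real.log N * ((N + 1 : ℕ) : ℝ) ^ (-σ) ≤ 1 / σ := by
      have hN0 : (0 : ℝ) < N := by exact_mod_cast hN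
      have h5 : Real.log N ≤ (N : ℝ) ^ σ / σ := Real.log_le_rpow_div hN0.le hσ
      have h6 : ((N + 1 : ℕ) : ℝ) ^ (-σ) ≤ (N : ℝ) ^ (-σ) :=
        Real.rpow_le_rpow_of_nonpos hN0 (by push_cast; linarith) (by linarith)
      calc Real.log N * ((N + 1 : ℕ) : ℝ) ^ (-σ) ≤ (N : ℝ) ^ σ / σ * (N : ℝ) ^ (-σ) :=
            mul_le_mul h5 h6 (rpow_neg_nonneg _ _) (by positivity)
        _ = (N : ℝ) ^ σ * (N : ℝ) ^ (-σ) / σ := by ring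
        _ = 1 / σ := by rw [← Real.rpow_add hN0, add_neg_cancel, Real.rpow_zero]
    have h7 := mul_le_mul_of_nonneg_left h4 hδ
    linarith
  refine (norm_add_le _ _).trans ((add_le_add h1 h2).trans (le_of_eq ?_))
  ring

variable {f : ℕ → ℂ} {B : ℝ}

theorem log_large (hf : IsMO f) {CF : ℝ} (hB : ∀ n : ℕ, 1 ≤ n → ‖f n‖ ≤ B / n) (hCF : 0 < CF)
    (hF : ∀ σ : ℝ, 0 < σ → ‖∑' n, g f σ n‖ ≤ σ * CF) :
    ∃ P : ℕ, ∃ δ : ℝ, 0 < δ ∧ ∀ X₀ : ℕ, ∃ X : ℕ, X₀ ≤ X ∧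
      δ * Real.log X < ‖∑ n ∈ Icc 1 X, lamP P n * f n‖ := by
  obtain ⟨P, δ, hδ, h1⟩ := twisted_large hf hB hCF hF
  refine ⟨P, δ / 4, by positivity, fun X₀ => ?_⟩
  by_contra hcon
  push Not at hcon
  set F : ℕ → ℂ := fun n => lamP P n * f n with hFdef
  set D : ℝ := ∑ n ∈ Icc 1 X₀, ‖F n‖ with hD
  have hD0 : 0 ≤ D := sum_nonneg fun _ _ => norm_nonneg _
  have h2 : ∀ X : ℕ, 1 ≤ X → ‖s F X‖ ≤ δ / 4 * Real.log X + D := by
    intro X hX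
    have hl : 0 ≤ δ / 4 * Real.log X := mul_nonneg (by positivity) (Real.log_natCast_nonneg _)
    rcases le_total X₀ X with h | h
    · have := hcon X h
      unfold s
      linarith
    · have h3 : ‖s F X‖ ≤ D := by
        unfold s
        refine (norm_sum_le _ _).trans ?_
        exact sum_le_sum_of_subset_of_nonneg (Icc_subset_Icc_right h) (fun _ _ _ => norm_nonneg _)
      linarith
  have h3 : ∀ σ : ℝ, 0 < σ → ‖∑' n, h f P σ n‖ ≤ 2 * (δ / 4) / σ + D := by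
    intro σ hσ
    have hs : Summable fun n => h f P σ n := (summable_h hB P hσ).of_norm
    have h4 : Tendsto (fun N : ℕ => ∑ n ∈ range (N + 1), h f P σ n) atTop (𝓝 (∑' n, h f P σ n)) :=
      (tendsto_add_atTop_iff_nat 1).2 hs.hasSum.tendsto_sum_nat
    refine le_of_tendsto h4.norm ?_
    filter_upwards [eventually_ge_atTop 1] with N hN
    have h5 : ∑ n ∈ range (N + 1), h f P σ n = ∑ n ∈ Icc 1 N, g F σ n := by
      have e1 : ∀ n, h f P σ n = g F σ n := fun n => by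
        unfold h g
        rw [hFdef]
        ring
      simp only [e1]
      rw [Finset.sum_range_succ', g_zero F hσ, add_zero, Finset.range_eq_Ico,
        Finset.sum_Ico_add' (fun n => g F σ n) 0 N 1]
      rfl
    rw [h5]
    exact dir_le (by positivity) hD0 hσ h2 N hN
  have h6 : ∀ᶠ σ : ℝ in 𝓝[>] 0, σ < δ / (2 * D + 2) :=
    Filter.mem_of_superset (Ioo_mem_nhdsGT (show 0 < δ / (2 * D + 2) by positivity)) fun σ hσ => hσ.2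
  obtain ⟨σ, ⟨h7, h8⟩, h9⟩ := ((h1.and h6).and self_mem_nhdsWithin).exists
  have hσ : 0 < σ := h9
  have h10 := h7.trans (h3 σ hσ)
  rw [lt_div_iff₀ (by positivity)] at h8
  rw [div_le_iff₀ hσ] at h10
  have e2 : (2 * (δ / 4) / σ + D) * σ = δ / 2 + D * σ := by field_simp; ring
  rw [e2] at h10
  nlinarith

/-- `n |s(n)|²` -/
noncomputable def v (f : ℕ → ℂ) (n : ℕ) : ℝ := n * ‖s f n‖ ^ 2

theorem v_nonneg (f : ℕ → ℂ) (n : ℕ) : 0 ≤ v f n := by unfold v; positivity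

theorem v_half {D : ℝ} (hD : 0 ≤ D) (hV : ∀ X : ℕ, 1 ≤ X → ∑ n ∈ Icc 1 X, v f n ≤ D * (1 + Real.log X)) (N : ℕ) :
    ∑ n ∈ Icc 1 N, v f n * (n : ℝ) ^ (-(1 / 2 : ℝ)) ≤ 5 * D := by
  rcases Nat.eq_zero_or_pos N with rfl | hN
  · simp
    linarith
  have h1 := dir_le (F := fun n => ((v f n : ℝ) : ℂ)) (δ := D) (D := D) (σ := 1 / 2) hD hD (by norm_num) (fun X hX => by
    unfold s
    rw [← Complex.ofReal_sum, Complex.norm_real, Real.norm_of_nonneg (sum_nonneg fun n _ => v_nonneg f n)]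
    have := hV X hX
    linarith) N hN
  have e1 : ∑ n ∈ Icc 1 N, g (fun n => ((v f n : ℝ) : ℂ)) (1 / 2) n =
      ((∑ n ∈ Icc 1 N, v f n * (n : ℝ) ^ (-(1 / 2 : ℝ)) : ℝ) : ℂ) := by
    unfold g
    push_cast
    rfl
  rw [e1, Complex.norm_real, Real.norm_of_nonneg (sum_nonneg fun n _ => mul_nonneg (v_nonneg f n) (by positivity))] at h1
  refine h1.trans (le_of_eq ?_)
  ring

theorem s_div {D : ℝ} (hD : 0 ≤ D) (hV : ∀ X : ℕ, 1 ≤ X → ∑ n ∈ Icc 1 X, v f n ≤ D * (1 + Real.log X)) (N : ℕ) :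
    ∑ n ∈ Icc 1 N, ‖s f n‖ / n ≤ 5 * D + ∑' n : ℕ, 1 / (n : ℝ) ^ 2 := by
  have hs : Summable fun n : ℕ => 1 / (n : ℝ) ^ 2 := Real.summable_one_div_nat_pow.2 (by norm_num)
  calc ∑ n ∈ Icc 1 N, ‖s f n‖ / n ≤ ∑ n ∈ Icc 1 N, (v f n * (n : ℝ) ^ (-(1 / 2 : ℝ)) + 1 / (n : ℝ) ^ 2) := by
        refine sum_le_sum fun n hn => ?_
        have hn1 : (1 : ℝ) ≤ n := by exact_mod_cast (mem_Icc.1 hn).1
        have hn0 : (0 : ℝ) < n := by linarith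
        have h1 : (1 : ℝ) / n ≤ (n : ℝ) ^ (-(1 / 2 : ℝ)) := by
          rw [one_div, ← Real.rpow_neg_one]
          exact Real.rpow_le_rpow_of_exponent_le hn1 (by norm_num)
        have h2 : v f n * (1 / n) ≤ v f n * (n : ℝ) ^ (-(1 / 2 : ℝ)) := mul_le_mul_of_nonneg_left h1 (v_nonneg f n)
        have h3 : v f n * (1 / n) = ‖s f n‖ ^ 2 := by
          unfold v
          field_simp
        have h4 : ‖s f n‖ / n ≤ ‖s f n‖ ^ 2 + 1 / (n : ℝ) ^ 2 := by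
          have h5 : 0 ≤ (‖s f n‖ - 1 / n) ^ 2 := sq_nonneg _
          have h6 : 0 ≤ ‖s f n‖ / n := by positivity
          have e1 : (‖s f n‖ - 1 / n) ^ 2 = ‖s f n‖ ^ 2 + 1 / (n : ℝ) ^ 2 - 2 * (‖s f n‖ / n) := by
            field_simp
            ring
          linarith
        linarith
    _ = ∑ n ∈ Icc 1 N, v f n * (n : ℝ) ^ (-(1 / 2 : ℝ)) + ∑ n ∈ Icc 1 N, 1 / (n : ℝ) ^ 2 := sum_add_distrib
    _ ≤ _ := add_le_add (v_half hD hV N) (hs.sum_le_tsum _ (fun n _ => by positivity))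

theorem F_small (hf : IsMO f) (hB : ∀ n : ℕ, 1 ≤ n → ‖f n‖ ≤ B / n) {D : ℝ} (hD : 0 ≤ D)
    (hV : ∀ X : ℕ, 1 ≤ X → ∑ n ∈ Icc 1 X, v f n ≤ D * (1 + Real.log X)) {σ : ℝ} (hσ : 0 < σ) :
    ‖∑' n, g f σ n‖ ≤ σ * (5 * D + ∑' n : ℕ, 1 / (n : ℝ) ^ 2) := by
  have hs : Summable fun n => g f σ n := (summable_g hB hσ).of_norm
  have h1 : Tendsto (fun N : ℕ => ∑ n ∈ range (N + 1), g f σ n) atTop (𝓝 (∑' n, g f σ n)) :=
    (tendsto_add_atTop_iff_nat 1).2 hs.hasSum.tendsto_sum_nat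
  have h2 : ∀ N, ∑ n ∈ range (N + 1), g f σ n = ∑ n ∈ Icc 1 N, g f σ n := by
    intro N
    rw [Finset.sum_range_succ', g_zero f hσ, add_zero, Finset.range_eq_Ico,
      Finset.sum_Ico_add' (fun n => g f σ n) 0 N 1]
    rfl
  have h3 : Tendsto (fun N : ℕ => σ * (5 * D + ∑' n : ℕ, 1 / (n : ℝ) ^ 2) + ‖s f N‖) atTop
      (𝓝 (σ * (5 * D + ∑' n : ℕ, 1 / (n : ℝ) ^ 2) + 0)) := by
    refine tendsto_const_nhds.add ?_
    have := hf.sum_zero.norm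
    rwa [norm_zero] at this
  rw [add_zero] at h3
  refine le_of_tendsto_of_tendsto h1.norm h3 (Eventually.of_forall fun N => ?_)
  show ‖∑ n ∈ range (N + 1), g f σ n‖ ≤ σ * (5 * D + ∑' n : ℕ, 1 / (n : ℝ) ^ 2) + ‖s f N‖
  rw [h2, sum_g]
  refine (norm_add_le _ _).trans (add_le_add ?_ ?_)
  · calc _ ≤ ∑ n ∈ Icc 1 N, σ * (‖s f n‖ / n) := by
          refine norm_sum_le_of_le _ fun n hn => ?_
          have hn1 := (mem_Icc.1 hn).1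
          rw [norm_mul, Complex.norm_real, Real.norm_of_nonneg (rpow_diff_nonneg hn1 hσ.le)]
          calc ‖s f n‖ * ((n : ℝ) ^ (-σ) - ((n + 1 : ℕ) : ℝ) ^ (-σ)) ≤ ‖s f n‖ * (σ / n) :=
                mul_le_mul_of_nonneg_left (rpow_diff_le hn1 hσ.le) (norm_nonneg _)
            _ = σ * (‖s f n‖ / n) := by ring
      _ = σ * ∑ n ∈ Icc 1 N, ‖s f n‖ / n := by rw [mul_sum]
      _ ≤ _ := mul_le_mul_of_nonneg_left (s_div hD hV N) hσ.le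
  · rw [norm_mul, Complex.norm_real, Real.norm_of_nonneg (rpow_neg_nonneg _ _)]
    exact mul_le_of_le_one_right (norm_nonneg _) (rpow_neg_le_one (by omega) hσ.le)

end Pool.Agent.Q179.MO
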