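import Pool.Agent.Q179.MO.Bd
import Pool.Agent.Q179.MO.Log

/-! No MO function has partial sums `O(1 / x)`. -/

set_option autoImplicit false

namespace Pool.Agent.Q179.MO

open Finset Filter Topology
open Pool.Agent.TH127.MO (IsMO s s_succ norm_f_le)

variable {f : ℕ → ℂ}

/-- `n f(n)` -/
noncomputable def GG (f : ℕ → ℂ) (n : ℕ) : ℂ := n * f n

theorem GG_MB (hf : IsMO f) {B : ℝ} (hB : ∀ n : ℕ, 1 ≤ n → ‖f n‖ ≤ B / n) : MB (GG f) B where
  one := by unfold GG; rw [hf.one]; simp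
  mul := fun m n hm hn hc => by
    unfold GG
    rw [hf.mul m n hm hn hc]
    push_cast
    ring
  bd := fun n hn => by
    unfold GG
    have h0 : (0 : ℝ) < n := by exact_mod_cast hn
    have h1 := hB n hn
    rw [norm_mul, Complex.norm_natCast]
    rw [le_div_iff₀ h0] at h1
    linarith

theorem lamP_MB (P : ℕ) : MB (lamP P) 1 where
  one := lamP_one P
  mul := fun m n hm hn _ => lamP_mul P m n hm hn
  bd := fun n _ => lamP_norm P n

open Classical in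
/-- indicator of the integers without small prime factors -/
noncomputable def kp (P n : ℕ) : ℂ := if Nat.Coprime n P.factorial then 1 else 0

theorem kp_norm (P n : ℕ) : ‖kp P n‖ ≤ 1 := by
  unfold kp
  split_ifs <;> simp

theorem kp_per (P n : ℕ) : kp P (n + P.factorial) = kp P n := by
  unfold kp
  exact if_congr (by rw [Nat.coprime_add_self_left]) rfl rfl

theorem lamP_eq (P n : ℕ) (hn : 1 ≤ n) : lamP P n = lam n * kp P n := by
  unfold lamP lam kp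
  have h1 : (∀ p ∈ n.primeFactors, P < p) ↔ Nat.Coprime n P.factorial := by
    constructor
    · intro h
      refine Nat.Coprime.symm (Nat.coprime_of_dvd ?_)
      intro p hp h2 h3
      have h4 := (hp.dvd_factorial).1 h2
      have h5 := h p (Nat.mem_primeFactors.2 ⟨hp, h3, by omega⟩)
      omega
    · intro h p hp
      by_contra h2
      have hpp := Nat.prime_of_mem_primeFactors hp
      have h3 := (hpp.dvd_factorial).2 (not_lt.1 h2)
      have h4 := Nat.dvd_gcd (Nat.dvd_of_mem_primeFactors hp) h3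
      rw [h] at h4
      exact hpp.one_lt.ne' (Nat.dvd_one.1 h4)
  by_cases h2 : Nat.Coprime n P.factorial
  · rw [if_pos h2, if_pos (h1.2 h2), mul_one]
    rfl
  · rw [if_neg h2, if_neg (fun h => h2 (h1.1 h)), mul_zero]

theorem pairP {g : ℕ → ℂ} {C : ℝ} (hg : MB g C) (P a c : ℕ) (hac : a ≠ c) (ε : ℝ) (hε : 0 < ε) :
    ∀ᶠ X : ℕ in atTop, ‖∑ n ∈ Icc 1 X, lamP P (n + a) * g (n + c) / n‖ ≤ ε * Real.log X := by
  obtain ⟨X₀, h0⟩ := pair3 a c hac P.factorial P.factorial_pos (kp P) (kp_norm P) (kp_per P) hg ε hε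
  filter_upwards [eventually_ge_atTop X₀] with X hX
  convert h0 X hX using 2
  refine sum_congr rfl fun n hn => ?_
  rw [lamP_eq P (n + a) (by have := (mem_Icc.1 hn).1; omega)]

theorem window (f : ℕ → ℂ) (n H : ℕ) : ∑ h ∈ Icc 1 H, GG f (n + h) =
    ((n + H : ℕ) : ℂ) * s f (n + H) - (n : ℂ) * s f n - ∑ h ∈ range H, s f (n + h) := by
  induction H with
  | zero => simp
  | succ H ih =>
    rw [sum_Icc_succ_top (by omega), ih, sum_range_succ, GG, ← add_assoc, s_succ]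
    push_cast
    ring

theorem window_norm (f : ℕ → ℂ) (n H : ℕ) : ‖∑ h ∈ Icc 1 H, GG f (n + h)‖ ^ 2 ≤
    3 * ((((n + H : ℕ) : ℝ) * ‖s f (n + H)‖) ^ 2 + ((n : ℝ) * ‖s f n‖) ^ 2 + H * ∑ h ∈ range H, ‖s f (n + h)‖ ^ 2) := by
  have h1 : ‖∑ h ∈ Icc 1 H, GG f (n + h)‖ ≤ ((n + H : ℕ) : ℝ) * ‖s f (n + H)‖ + (n : ℝ) * ‖s f n‖ +
      ∑ h ∈ range H, ‖s f (n + h)‖ := by
    rw [window]
    refine (norm_sub_le _ _).trans (add_le_add ((norm_sub_le _ _).trans (le_of_eq ?_)) (norm_sum_le _ _))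
    rw [norm_mul, norm_mul, Complex.norm_natCast, Complex.norm_natCast]
  have h2 : (∑ h ∈ range H, ‖s f (n + h)‖) ^ 2 ≤ H * ∑ h ∈ range H, ‖s f (n + h)‖ ^ 2 := by
    have := sq_sum_le_card_mul_sum_sq (s := range H) (f := fun h => ‖s f (n + h)‖)
    rwa [card_range] at this
  set a := ((n + H : ℕ) : ℝ) * ‖s f (n + H)‖
  set b := (n : ℝ) * ‖s f n‖
  set c := ∑ h ∈ range H, ‖s f (n + h)‖
  have h3 : ‖∑ h ∈ Icc 1 H, GG f (n + h)‖ ^ 2 ≤ (a + b + c) ^ 2 := pow_le_pow_left₀ (norm_nonneg _) h1 2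
  nlinarith [sq_nonneg (a - b), sq_nonneg (b - c), sq_nonneg (a - c)]

/-- the error term -/
noncomputable def EH (D H : ℝ) : ℝ := 3 * (D * (1 + H) + 5 * D * (H * (1 + H)) + D + 5 * D * (H * H))

theorem window_sq {D : ℝ} (hD : 0 ≤ D) (hV : ∀ X : ℕ, 1 ≤ X → ∑ n ∈ Icc 1 X, v f n ≤ D * (1 + Real.log X))
    (H X : ℕ) (hX : 1 ≤ X) :
    ∑ n ∈ Icc 1 X, ‖∑ h ∈ Icc 1 H, GG f (n + h)‖ ^ 2 / (n : ℝ) ≤ 6 * D * Real.log X + EH D H := by
  -- shifted sums
  have hshift : ∀ (w : ℕ → ℝ), (∀ n, 0 ≤ w n) → ∀ k : ℕ, ∑ n ∈ Icc 1 X, w (n + k) ≤ ∑ m ∈ Icc 1 (X + k), w m := by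
    intro w hw k
    have e1 : ∑ n ∈ Icc 1 X, w (n + k) = ∑ m ∈ (Icc 1 X).map (addRightEmbedding k), w m := by
      rw [sum_map]
      rfl
    rw [e1, Finset.map_add_right_Icc]
    exact sum_le_sum_of_subset_of_nonneg (Icc_subset_Icc_left (by omega)) (fun m _ _ => hw m)
  have hhalf : ∀ k : ℕ, ∑ n ∈ Icc 1 X, v f (n + k) * ((n + k : ℕ) : ℝ) ^ (-(1 / 2 : ℝ)) ≤ 5 * D := fun k =>
    (hshift (fun m => v f m * (m : ℝ) ^ (-(1 / 2 : ℝ))) (fun m => mul_nonneg (v_nonneg f m) (by positivity)) k).trans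
      (v_half hD hV (X + k))
  have hinv : ∀ m : ℕ, 1 ≤ m → (1 : ℝ) / m ≤ (m : ℝ) ^ (-(1 / 2 : ℝ)) := by
    intro m hm
    rw [one_div, ← Real.rpow_neg_one]
    exact Real.rpow_le_rpow_of_exponent_le (by exact_mod_cast hm) (by norm_num)
  have hA : ∑ n ∈ Icc 1 X, (((n + H : ℕ) : ℝ) * ‖s f (n + H)‖) ^ 2 / (n : ℝ) ≤
      D * (1 + Real.log X + H) + 5 * D * (H * (1 + H)) := by
    calc _ ≤ ∑ n ∈ Icc 1 X, (v f (n + H) + H * (1 + H) * (v f (n + H) * ((n + H : ℕ) : ℝ) ^ (-(1 / 2 : ℝ)))) := by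
          refine sum_le_sum fun n hn => ?_
          have hn1 : (1 : ℝ) ≤ n := by exact_mod_cast (mem_Icc.1 hn).1
          have hn0 : (0 : ℝ) < n := by linarith
          have hH : (0 : ℝ) ≤ H := Nat.cast_nonneg H
          have e1 : (((n + H : ℕ) : ℝ) * ‖s f (n + H)‖) ^ 2 / (n : ℝ) = v f (n + H) + H * (v f (n + H) * (1 / n)) := by
            unfold v
            push_cast
            field_simp
          have h1 : (1 : ℝ) / n ≤ (1 + H) * (1 / ((n + H : ℕ) : ℝ)) := by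
            push_cast
            rw [mul_one_div, div_le_div_iff₀ hn0 (by positivity)]
            nlinarith
          have h2 : (1 : ℝ) / n ≤ (1 + H) * ((n + H : ℕ) : ℝ) ^ (-(1 / 2 : ℝ)) :=
            h1.trans (mul_le_mul_of_nonneg_left (hinv (n + H) (by have := (mem_Icc.1 hn).1; omega)) (by positivity))
          have h3 := mul_le_mul_of_nonneg_left (mul_le_mul_of_nonneg_left h2 (v_nonneg f (n + H))) hH
          rw [e1]
          linarith
      _ = ∑ n ∈ Icc 1 X, v f (n + H) + H * (1 + H) * ∑ n ∈ Icc 1 X, v f (n + H) * ((n + H : ℕ) : ℝ) ^ (-(1 / 2 : ℝ)) := by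
          rw [sum_add_distrib, mul_sum]
      _ ≤ D * (1 + Real.log ((X + H : ℕ) : ℝ)) + H * (1 + H) * (5 * D) :=
          add_le_add ((hshift (v f) (v_nonneg f) H).trans (hV _ (by omega)))
            (mul_le_mul_of_nonneg_left (hhalf H) (by positivity))
      _ ≤ _ := by
          have hX0 : (1 : ℝ) ≤ X := by exact_mod_cast hX
          have hH : (0 : ℝ) ≤ H := Nat.cast_nonneg H
          have h1 : Real.log ((X + H : ℕ) : ℝ) ≤ Real.log X + H := by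
            have h2 : ((X + H : ℕ) : ℝ) ≤ X * (1 + H) := by
              push_cast
              nlinarith
            have h3 := Real.log_le_log (by push_cast; linarith) h2
            rw [Real.log_mul (by linarith) (by linarith)] at h3
            have h4 := Real.log_le_sub_one_of_pos (show (0 : ℝ) < 1 + H by linarith)
            linarith
          have := mul_le_mul_of_nonneg_left h1 hD
          linarith
  have hB : ∑ n ∈ Icc 1 X, ((n : ℝ) * ‖s f n‖) ^ 2 / (n : ℝ) ≤ D * (1 + Real.log X) := by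
    refine le_trans (le_of_eq (sum_congr rfl fun n hn => ?_)) (hV X hX)
    have hn0 : (n : ℝ) ≠ 0 := by
      have := (mem_Icc.1 hn).1
      exact_mod_cast (by omega : n ≠ 0)
    unfold v
    field_simp
  have hCc : ∑ n ∈ Icc 1 X, (H * ∑ h ∈ range H, ‖s f (n + h)‖ ^ 2) / (n : ℝ) ≤ 5 * D * (H * H) := by
    calc _ ≤ ∑ n ∈ Icc 1 X, H * ∑ h ∈ range H, v f (n + h) * ((n + h : ℕ) : ℝ) ^ (-(1 / 2 : ℝ)) := by
          refine sum_le_sum fun n hn => ?_
          have hn1 : (1 : ℝ) ≤ n := by exact_mod_cast (mem_Icc.1 hn).1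
          refine (div_le_self (by positivity) hn1).trans (mul_le_mul_of_nonneg_left (sum_le_sum fun h _ => ?_)
            (Nat.cast_nonneg H))
          have hm1 : 1 ≤ n + h := by have := (mem_Icc.1 hn).1; omega
          have hm0 : ((n + h : ℕ) : ℝ) ≠ 0 := by exact_mod_cast (by omega : n + h ≠ 0)
          have e1 : ‖s f (n + h)‖ ^ 2 = v f (n + h) * (1 / ((n + h : ℕ) : ℝ)) := by
            unfold v
            field_simp
          rw [e1]
          exact mul_le_mul_of_nonneg_left (hinv _ hm1) (v_nonneg f _)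
      _ = H * ∑ h ∈ range H, ∑ n ∈ Icc 1 X, v f (n + h) * ((n + h : ℕ) : ℝ) ^ (-(1 / 2 : ℝ)) := by
          rw [← mul_sum, sum_comm]
      _ ≤ H * ∑ h ∈ range H, 5 * D := mul_le_mul_of_nonneg_left (sum_le_sum fun h _ => hhalf h) (Nat.cast_nonneg H)
      _ = _ := by
          rw [sum_const, card_range, nsmul_eq_mul]
          ring
  calc _ ≤ ∑ n ∈ Icc 1 X, 3 * ((((n + H : ℕ) : ℝ) * ‖s f (n + H)‖) ^ 2 / (n : ℝ) + ((n : ℝ) * ‖s f n‖) ^ 2 / (n : ℝ) +
        (H * ∑ h ∈ range H, ‖s f (n + h)‖ ^ 2) / (n : ℝ)) := by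
        refine sum_le_sum fun n _ => ?_
        refine (div_le_div_of_nonneg_right (window_norm f n H) (Nat.cast_nonneg n)).trans (le_of_eq ?_)
        ring
    _ = 3 * (∑ n ∈ Icc 1 X, (((n + H : ℕ) : ℝ) * ‖s f (n + H)‖) ^ 2 / (n : ℝ) +
        ∑ n ∈ Icc 1 X, ((n : ℝ) * ‖s f n‖) ^ 2 / (n : ℝ) +
        ∑ n ∈ Icc 1 X, (H * ∑ h ∈ range H, ‖s f (n + h)‖ ^ 2) / (n : ℝ)) := by
        rw [← mul_sum, sum_add_distrib, sum_add_distrib]
    _ ≤ 3 * ((D * (1 + Real.log X + H) + 5 * D * (H * (1 + H))) + D * (1 + Real.log X) + 5 * D * (H * H)) := by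
        linarith
    _ = _ := by
        unfold EH
        ring

theorem shift_eq (F : ℕ → ℂ) (X : ℕ) : ∑ n ∈ Icc 1 X, F (n + 1) / n - ∑ n ∈ Icc 1 X, F n / n =
    ∑ n ∈ Icc 1 X, F (n + 1) * (1 / (n : ℂ) - 1 / ((n : ℂ) + 1)) + F (X + 1) / ((X : ℂ) + 1) - F 1 := by
  induction X with
  | zero => simp
  | succ X ih =>
    rw [sum_Icc_succ_top (by omega), sum_Icc_succ_top (by omega), sum_Icc_succ_top (by omega)]
    have e1 : ∀ a b c d : ℂ, a + b - (c + d) = (a - c) + (b - d) := fun a b c d => by ring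
    rw [e1, ih]
    have h1 : ((X : ℂ) + 1) ≠ 0 := by exact_mod_cast Nat.succ_ne_zero X
    have h2 : ((X : ℂ) + 1 + 1) ≠ 0 := by exact_mod_cast Nat.succ_ne_zero (X + 1)
    push_cast
    field_simp
    ring

theorem shift_one {F : ℕ → ℂ} {C : ℝ} (hF : ∀ n, 1 ≤ n → ‖F n‖ ≤ C) (X : ℕ) :
    ‖∑ n ∈ Icc 1 X, F (n + 1) / n - ∑ n ∈ Icc 1 X, F n / n‖ ≤ 3 * C := by
  have hC : 0 ≤ C := (norm_nonneg _).trans (hF 1 le_rfl)
  rw [shift_eq]
  have h1 : ‖∑ n ∈ Icc 1 X, F (n + 1) * (1 / (n : ℂ) - 1 / ((n : ℂ) + 1))‖ ≤ C := by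
    have h2 : ∀ X : ℕ, ∑ n ∈ Icc 1 X, C * (1 / (n : ℝ) - 1 / ((n : ℝ) + 1)) = C * (1 - 1 / ((X : ℝ) + 1)) := by
      intro X
      induction X with
      | zero => simp
      | succ X ih =>
        rw [sum_Icc_succ_top (by omega), ih]
        push_cast
        ring
    calc _ ≤ ∑ n ∈ Icc 1 X, C * (1 / (n : ℝ) - 1 / ((n : ℝ) + 1)) := by
          refine norm_sum_le_of_le _ fun n hn => ?_
          have hn0 : (0 : ℝ) < n := by exact_mod_cast (mem_Icc.1 hn).1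
          have e1 : (1 / (n : ℂ) - 1 / ((n : ℂ) + 1)) = (((1 / (n : ℝ) - 1 / ((n : ℝ) + 1) : ℝ)) : ℂ) := by push_cast; rfl
          have h3 : 0 ≤ 1 / (n : ℝ) - 1 / ((n : ℝ) + 1) := by
            rw [sub_nonneg]
            exact one_div_le_one_div_of_le hn0 (by linarith)
          rw [norm_mul, e1, Complex.norm_real, Real.norm_of_nonneg h3]
          exact mul_le_mul_of_nonneg_right (hF _ (by omega)) h3
      _ = C * (1 - 1 / ((X : ℝ) + 1)) := h2 X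
      _ ≤ C := by
          have : 0 ≤ 1 / ((X : ℝ) + 1) := by positivity
          nlinarith
  have h2 : ‖F (X + 1) / ((X : ℂ) + 1)‖ ≤ C := by
    rw [norm_div]
    have e1 : ‖(X : ℂ) + 1‖ = (X : ℝ) + 1 := by
      rw [show (X : ℂ) + 1 = ((X + 1 : ℕ) : ℂ) by push_cast; rfl, Complex.norm_natCast]
      push_cast
      rfl
    rw [e1]
    refine (div_le_self (norm_nonneg _) (by linarith [(Nat.cast_nonneg X : (0 : ℝ) ≤ X)])).trans (hF _ (by omega))
  have h3 := hF 1 le_rfl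
  refine (norm_sub_le _ _).trans ((add_le_add ((norm_add_le _ _).trans (add_le_add h1 h2)) h3).trans (le_of_eq ?_))
  ring

theorem shift_le {F : ℕ → ℂ} {C : ℝ} (hF : ∀ n, 1 ≤ n → ‖F n‖ ≤ C) (X j : ℕ) :
    ‖∑ n ∈ Icc 1 X, F (n + j) / n - ∑ n ∈ Icc 1 X, F n / n‖ ≤ 3 * C * j := by
  induction j with
  | zero => simp
  | succ j ih =>
    have h1 := shift_one (F := fun n => F (n + j)) (fun n hn => hF _ (by omega)) X
    have e1 : ∑ n ∈ Icc 1 X, F (n + (j + 1)) / n - ∑ n ∈ Icc 1 X, F n / n =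
        (∑ n ∈ Icc 1 X, F (n + 1 + j) / n - ∑ n ∈ Icc 1 X, F (n + j) / n) +
        (∑ n ∈ Icc 1 X, F (n + j) / n - ∑ n ∈ Icc 1 X, F n / n) := by
      have : ∀ n, n + 1 + j = n + (j + 1) := fun n => by ring
      simp only [this]
      ring
    rw [e1]
    refine (norm_add_le _ _).trans ((add_le_add h1 ih).trans (le_of_eq ?_))
    push_cast
    ring

theorem conj_lamP (P n : ℕ) : (starRingEnd ℂ) (lamP P n) = lamP P n := by
  unfold lamP
  split_ifs
  · rw [map_pow, map_neg, map_one]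
  · simp

theorem sq_U (P n H : ℕ) : ((‖∑ j ∈ Icc 1 H, lamP P (n + j)‖ ^ 2 : ℝ) : ℂ) =
    ∑ j ∈ Icc 1 H, ∑ j' ∈ Icc 1 H, lamP P (n + j) * lamP P (n + j') := by
  have e1 := Complex.mul_conj' (∑ j ∈ Icc 1 H, lamP P (n + j))
  rw [map_sum] at e1
  simp only [conj_lamP] at e1
  rw [sum_mul_sum] at e1
  rw [e1]
  push_cast
  rfl

/-- the double sum over the shifts: the diagonal against the rest -/
theorem double {P : ℕ} {g : ℕ → ℂ} {ε : ℝ} {X H : ℕ}
    (h : ∀ j ∈ Icc 1 H, ∀ k ∈ Icc 1 H, j ≠ k → ‖∑ n ∈ Icc 1 X, lamP P (n + j) * g (n + k) / n‖ ≤ ε * Real.log X)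
    (hε : 0 ≤ ε) :
    ‖∑ n ∈ Icc 1 X, (∑ j ∈ Icc 1 H, ∑ k ∈ Icc 1 H, lamP P (n + j) * g (n + k)) / n -
      ∑ j ∈ Icc 1 H, ∑ n ∈ Icc 1 X, lamP P (n + j) * g (n + j) / n‖ ≤ H ^ 2 * (ε * Real.log X) := by
  have e1 : ∑ n ∈ Icc 1 X, (∑ j ∈ Icc 1 H, ∑ k ∈ Icc 1 H, lamP P (n + j) * g (n + k)) / (n : ℂ) =
      ∑ j ∈ Icc 1 H, ∑ k ∈ Icc 1 H, ∑ n ∈ Icc 1 X, lamP P (n + j) * g (n + k) / n := by
    simp only [sum_div]
    rw [sum_comm]
    refine sum_congr rfl fun j _ => ?_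
    rw [sum_comm]
  have e2 : ∑ j ∈ Icc 1 H, ∑ n ∈ Icc 1 X, lamP P (n + j) * g (n + j) / (n : ℂ) =
      ∑ j ∈ Icc 1 H, ∑ k ∈ Icc 1 H, if j = k then ∑ n ∈ Icc 1 X, lamP P (n + j) * g (n + k) / n else 0 := by
    refine sum_congr rfl fun j hj => ?_
    rw [sum_ite_eq, if_pos hj]
  have hl : 0 ≤ ε * Real.log X := mul_nonneg hε (Real.log_natCast_nonneg _)
  rw [e1, e2, ← sum_sub_distrib]
  calc _ ≤ ∑ j ∈ Icc 1 H, ∑ k ∈ Icc 1 H, ε * Real.log X := by
        refine norm_sum_le_of_le _ fun j hj => ?_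
        rw [← sum_sub_distrib]
        refine norm_sum_le_of_le _ fun k hk => ?_
        by_cases hjk : j = k
        · rw [if_pos hjk, sub_self, norm_zero]
          exact hl
        · rw [if_neg hjk, sub_zero]
          exact h j hj k hk hjk
    _ = _ := by
        rw [sum_const, sum_const, Nat.card_Icc, nsmul_eq_mul, nsmul_eq_mul]
        push_cast
        ring

theorem ev_all {P : ℕ} {g : ℕ → ℂ} {C : ℝ} (hg : MB g C) (H : ℕ) {ε : ℝ} (hε : 0 < ε) : ∀ᶠ X : ℕ in atTop,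
    ∀ j ∈ Icc 1 H, ∀ k ∈ Icc 1 H, j ≠ k → ‖∑ n ∈ Icc 1 X, lamP P (n + j) * g (n + k) / n‖ ≤ ε * Real.log X := by
  rw [Filter.eventually_all_finset]
  intro j _
  rw [Filter.eventually_all_finset]
  intro k _
  by_cases hjk : j = k
  · exact Eventually.of_forall fun X h => absurd hjk h
  · filter_upwards [pairP hg P j k hjk ε hε] with X hX _ using hX

theorem no_MO2 (hf : IsMO f) {C : ℝ} (hB : ∀ n : ℕ, 1 ≤ n → ‖f n‖ ≤ C / n) {D : ℝ} (hD : 0 ≤ D)
    (hV : ∀ X : ℕ, 1 ≤ X → ∑ n ∈ Icc 1 X, v f n ≤ D * (1 + Real.log X)) : False := by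
  have hZ1 : 0 < ∑' n : ℕ, 1 / (n : ℝ) ^ 2 := by
    have hs : Summable fun n : ℕ => 1 / (n : ℝ) ^ 2 := Real.summable_one_div_nat_pow.2 (by norm_num)
    exact hs.tsum_pos (fun n => by positivity) 1 (by norm_num)
  obtain ⟨P, δ, hδ, hlarge⟩ := log_large hf hB (CF := 5 * D + ∑' n : ℕ, 1 / (n : ℝ) ^ 2) (by positivity)
    (fun σ hσ => F_small hf hB hD hV hσ)
  have hG := GG_MB hf hB
  have hC1 : 1 ≤ C := hG.one_le
  obtain ⟨H, hH⟩ := exists_nat_ge (2 / δ * (1 + 12 * D / δ))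
  have hpos : 0 < 2 / δ * (1 + 12 * D / δ) := by positivity
  have hH0 : (0 : ℝ) < H := hpos.trans_le hH
  have hH1 : 1 ≤ H := by exact_mod_cast hH0
  set ε : ℝ := min δ 1 / (4 * H) with hε
  have hε0 : 0 < ε := by positivity
  have hε1 : H ^ 2 * ε ≤ H * δ / 4 := by
    have : H ^ 2 * ε = H * min δ 1 / 4 := by
      rw [hε]
      field_simp
    rw [this]
    have := min_le_left δ 1
    have := mul_le_mul_of_nonneg_left this hH0.le
    linarith
  have hε2 : H ^ 2 * ε ≤ H / 4 := by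
    have : H ^ 2 * ε = H * min δ 1 / 4 := by
      rw [hε]
      field_simp
    rw [this]
    have := min_le_right δ 1
    have := mul_le_mul_of_nonneg_left this hH0.le
    linarith
  obtain ⟨X₁, hX₁⟩ := eventually_atTop.1 ((ev_all (P := P) hG H hε0).and (ev_all (P := P) (lamP_MB P) H hε0))
  obtain ⟨X₂, hX₂⟩ := log_ev (3 * C * H ^ 2 + δ * H / 8 + 2 / δ * EH D H + 1)
  obtain ⟨X, hX, hXL⟩ := hlarge (X₁ + X₂ + 1)
  have hL := hX₂ X (by omega)
  have hL0 : 0 ≤ Real.log X := Real.log_natCast_nonneg _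
  obtain ⟨hA, hA'⟩ := hX₁ X (by omega)
  set L : ℝ := Real.log X with hLdef
  -- the mean square of the sums of the Liouville function
  have hU : ∑ n ∈ Icc 1 X, ‖∑ j ∈ Icc 1 H, lamP P (n + j)‖ ^ 2 / (n : ℝ) ≤ H * (1 + L) + H ^ 2 * (ε * L) := by
    have h1 := double hA' hε0.le
    have e1 : ∑ n ∈ Icc 1 X, (∑ j ∈ Icc 1 H, ∑ k ∈ Icc 1 H, lamP P (n + j) * lamP P (n + k)) / (n : ℂ) =
        ((∑ n ∈ Icc 1 X, ‖∑ j ∈ Icc 1 H, lamP P (n + j)‖ ^ 2 / (n : ℝ) : ℝ) : ℂ) := by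
      rw [Complex.ofReal_sum]
      refine sum_congr rfl fun n _ => ?_
      rw [Complex.ofReal_div, sq_U]
      simp
    have h2 : ‖∑ j ∈ Icc 1 H, ∑ n ∈ Icc 1 X, lamP P (n + j) * lamP P (n + j) / (n : ℂ)‖ ≤ H * (1 + L) := by
      calc _ ≤ ∑ j ∈ Icc 1 H, (1 + L) := by
            refine norm_sum_le_of_le _ fun j _ => ?_
            refine le_trans (norm_sum_le_of_le _ (n := fun n : ℕ => 1 / (n : ℝ)) fun n _ => ?_) (harm_le X)
            rw [norm_div, norm_mul, Complex.norm_natCast]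
            exact div_le_div_of_nonneg_right (mul_le_one₀ (lamP_norm _ _) (norm_nonneg _) (lamP_norm _ _)) (Nat.cast_nonneg _)
        _ = H * (1 + L) := by
            rw [sum_const, Nat.card_Icc, nsmul_eq_mul]
            simp
    rw [e1] at h1
    have h3 := norm_sub_norm_le (((∑ n ∈ Icc 1 X, ‖∑ j ∈ Icc 1 H, lamP P (n + j)‖ ^ 2 / (n : ℝ) : ℝ) : ℂ))
      (∑ j ∈ Icc 1 H, ∑ n ∈ Icc 1 X, lamP P (n + j) * lamP P (n + j) / (n : ℂ))
    rw [Complex.norm_real, Real.norm_of_nonneg (sum_nonneg fun _ _ => by positivity)] at h3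
    linarith
  -- the sum from below
  have hlow : H * (δ * L) - 3 * C * H ^ 2 - H ^ 2 * (ε * L) ≤
      ‖∑ n ∈ Icc 1 X, (∑ j ∈ Icc 1 H, ∑ k ∈ Icc 1 H, lamP P (n + j) * GG f (n + k)) / (n : ℂ)‖ := by
    have h1 := double hA hε0.le
    set Lb : ℂ := ∑ n ∈ Icc 1 X, lamP P n * f n with hLb
    have e0 : Lb = ∑ n ∈ Icc 1 X, lamP P n * GG f n / n := by
      rw [hLb]
      refine sum_congr rfl fun n hn => ?_
      have : (n : ℂ) ≠ 0 := by
        have := (mem_Icc.1 hn).1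
        exact_mod_cast (by omega : n ≠ 0)
      unfold GG
      field_simp
    have h2 : ‖∑ j ∈ Icc 1 H, ∑ n ∈ Icc 1 X, lamP P (n + j) * GG f (n + j) / (n : ℂ) - H * Lb‖ ≤ 3 * C * H ^ 2 := by
      have e1 : (H : ℂ) * Lb = ∑ j ∈ Icc 1 H, Lb := by
        rw [sum_const, Nat.card_Icc, nsmul_eq_mul]
        simp
      rw [e1, ← sum_sub_distrib]
      calc _ ≤ ∑ j ∈ Icc 1 H, 3 * C * H := by
            refine norm_sum_le_of_le _ fun j hj => ?_
            rw [e0]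
            have h3 := shift_le (F := fun n => lamP P n * GG f n) (C := C) (fun n hn => by
              rw [norm_mul]
              exact (mul_le_of_le_one_left (norm_nonneg _) (lamP_norm _ _)).trans (hG.bd n hn)) X j
            refine h3.trans ?_
            have : (j : ℝ) ≤ H := by exact_mod_cast (mem_Icc.1 hj).2
            exact mul_le_mul_of_nonneg_left this (by linarith)
        _ = _ := by
            rw [sum_const, Nat.card_Icc, nsmul_eq_mul]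
            push_cast
            ring
    have h3 : H * (δ * L) ≤ ‖(H : ℂ) * Lb‖ := by
      rw [norm_mul, Complex.norm_natCast]
      exact mul_le_mul_of_nonneg_left hXL.le hH0.le
    have h4 := norm_sub_norm_le ((H : ℂ) * Lb) (∑ n ∈ Icc 1 X, (∑ j ∈ Icc 1 H, ∑ k ∈ Icc 1 H, lamP P (n + j) * GG f (n + k)) / (n : ℂ))
    have h5 : ‖(H : ℂ) * Lb - ∑ n ∈ Icc 1 X, (∑ j ∈ Icc 1 H, ∑ k ∈ Icc 1 H, lamP P (n + j) * GG f (n + k)) / (n : ℂ)‖ ≤
        3 * C * H ^ 2 + H ^ 2 * (ε * L) := by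
      have e2 : (H : ℂ) * Lb - ∑ n ∈ Icc 1 X, (∑ j ∈ Icc 1 H, ∑ k ∈ Icc 1 H, lamP P (n + j) * GG f (n + k)) / (n : ℂ) =
          -((∑ j ∈ Icc 1 H, ∑ n ∈ Icc 1 X, lamP P (n + j) * GG f (n + j) / (n : ℂ) - H * Lb) +
            (∑ n ∈ Icc 1 X, (∑ j ∈ Icc 1 H, ∑ k ∈ Icc 1 H, lamP P (n + j) * GG f (n + k)) / (n : ℂ) -
              ∑ j ∈ Icc 1 H, ∑ n ∈ Icc 1 X, lamP P (n + j) * GG f (n + j) / (n : ℂ))) := by ring
      rw [e2, norm_neg]
      exact (norm_add_le _ _).trans (add_le_add h2 h1)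
    linarith
  -- the sum from above
  have hup : ‖∑ n ∈ Icc 1 X, (∑ j ∈ Icc 1 H, ∑ k ∈ Icc 1 H, lamP P (n + j) * GG f (n + k)) / (n : ℂ)‖ ≤
      δ / 8 * (H * (1 + L) + H ^ 2 * (ε * L)) + 2 / δ * (6 * D * L + EH D H) := by
    have h1 : ∀ n ∈ Icc 1 X, ‖(∑ j ∈ Icc 1 H, ∑ k ∈ Icc 1 H, lamP P (n + j) * GG f (n + k)) / (n : ℂ)‖ ≤
        δ / 8 * (‖∑ j ∈ Icc 1 H, lamP P (n + j)‖ ^ 2 / (n : ℝ)) +
          2 / δ * (‖∑ k ∈ Icc 1 H, GG f (n + k)‖ ^ 2 / (n : ℝ)) := by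
      intro n hn
      rw [← sum_mul_sum, norm_div, norm_mul, Complex.norm_natCast]
      set u := ‖∑ j ∈ Icc 1 H, lamP P (n + j)‖
      set w := ‖∑ k ∈ Icc 1 H, GG f (n + k)‖
      have h4 : u * w ≤ δ / 8 * u ^ 2 + 2 / δ * w ^ 2 := by
        have h5 : 0 ≤ (δ * u - 4 * w) ^ 2 / (8 * δ) := by positivity
        have e1 : (δ * u - 4 * w) ^ 2 / (8 * δ) = δ / 8 * u ^ 2 + 2 / δ * w ^ 2 - u * w := by
          field_simp
          ring
        linarith
      calc u * w / n ≤ (δ / 8 * u ^ 2 + 2 / δ * w ^ 2) / n := div_le_div_of_nonneg_right h4 (Nat.cast_nonneg n)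
        _ = _ := by ring
    refine (norm_sum_le_of_le _ h1).trans ?_
    rw [sum_add_distrib, ← mul_sum, ← mul_sum]
    exact add_le_add (mul_le_mul_of_nonneg_left hU (by positivity))
      (mul_le_mul_of_nonneg_left (window_sq hD hV H X (by omega)) (by positivity))
  have hfin := hlow.trans hup
  have hHδ : 1 + 12 * D / δ ≤ H * δ / 2 := by
    have h1 := mul_le_mul_of_nonneg_right hH (show 0 ≤ δ / 2 by positivity)
    have e1 : 2 / δ * (1 + 12 * D / δ) * (δ / 2) = 1 + 12 * D / δ := by field_simp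
    rw [e1] at h1
    linarith
  have h7 := mul_le_mul_of_nonneg_right hε1 hL0
  have h8 := mul_le_mul_of_nonneg_right hε2 hL0
  have h9 := mul_le_mul_of_nonneg_right hHδ hL0
  have h10 : δ / 8 * (H ^ 2 * (ε * L)) ≤ δ / 8 * (H / 4 * L) := mul_le_mul_of_nonneg_left (by linarith) (by positivity)
  have h11 : 0 ≤ H * δ * L := by positivity
  have e5 : 2 / δ * (6 * D * L + EH D H) = 12 * D / δ * L + 2 / δ * EH D H := by ring
  rw [e5] at hfin
  nlinarith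

theorem no_MO (hf : IsMO f) {K : ℝ} (hK : ∀ N : ℕ, 1 ≤ N → ‖s f N‖ ≤ K / N) : False := by
  refine no_MO2 hf (norm_f_le hK) (sq_nonneg K) fun X hX => ?_
  calc ∑ n ∈ Icc 1 X, v f n ≤ ∑ n ∈ Icc 1 X, K ^ 2 * (1 / (n : ℝ)) := by
        refine sum_le_sum fun n hn => ?_
        have hn0 : (0 : ℝ) < n := by exact_mod_cast (mem_Icc.1 hn).1
        have h1 := hK n (mem_Icc.1 hn).1
        have h2 := pow_le_pow_left₀ (norm_nonneg _) h1 2
        unfold v
        calc (n : ℝ) * ‖s f n‖ ^ 2 ≤ n * (K / n) ^ 2 := mul_le_mul_of_nonneg_left h2 hn0.le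
          _ = K ^ 2 * (1 / (n : ℝ)) := by field_simp
    _ = K ^ 2 * ∑ n ∈ Icc 1 X, 1 / (n : ℝ) := by rw [mul_sum]
    _ ≤ _ := mul_le_mul_of_nonneg_left (harm_le X) (sq_nonneg K)

end Pool.Agent.Q179.MO
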